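import Mathlib
import Pool.Agent.Y109.PI.Ord

/-! Alternating matrices with a two-dimensional kernel modulo `p`, on which the matrix `D` is nonzero: lifting of the
degenerate translate to all powers of `p`. -/

set_option autoImplicit false
set_option linter.all false

open Matrix

noncomputable section

namespace Pool.Agent.V5helper95.PI

open Pool.Agent.Y109.PI

section

variable {F : Type*} [Field F] {I : Type*} [Fintype I] [DecidableEq I]

/-- `w` has a two-dimensional kernel, and `D` is nonzero on it. -/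
def IsSimp (D w : Matrix I I F) : Prop :=
  ∃ u v : I → F, w *ᵥ u = 0 ∧ w *ᵥ v = 0 ∧ u ⬝ᵥ (D *ᵥ v) ≠ 0 ∧ ∀ x, w *ᵥ x = 0 → ∃ a b : F, x = a • u + b • v

theorem wdg_mulVec' (e f x : I → F) : wdg e f *ᵥ x = (f ⬝ᵥ x) • e - (e ⬝ᵥ x) • f := by
  funext u
  simp only [mulVec, dotProduct, wdg, Matrix.of_apply, Pi.sub_apply, Pi.smul_apply, smul_eq_mul,
    Finset.sum_mul, ← Finset.sum_sub_distrib]
  exact Finset.sum_congr rfl fun i _ => by ring

/-- an alternating form which vanishes on the vectors orthogonal to the `w j` is a sum of `w j ∧ a j` -/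
theorem exists_wdg {J : Type*} (s : Finset J) (w : J → I → F) : ∀ (Ω : Matrix I I F), Alt Ω →
    (∀ x y : I → F, (∀ j ∈ s, w j ⬝ᵥ x = 0) → (∀ j ∈ s, w j ⬝ᵥ y = 0) → x ⬝ᵥ (Ω *ᵥ y) = 0) →
    ∃ a : J → I → F, Ω = ∑ j ∈ s, wdg (w j) (a j) := by
  classical
  induction s using Finset.induction_on with
  | empty =>
    intro Ω hΩ h
    refine ⟨0, ?_⟩
    rw [Finset.sum_empty]
    ext i j
    have h1 := h (Pi.single i 1) (Pi.single j 1) (by simp) (by simp)
    rw [mulVec_single_one, single_one_dotProduct] at h1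
    exact h1
  | insert m s hm ih =>
    intro Ω hΩ h
    by_cases hcase : ∀ x : I → F, (∀ j ∈ s, w j ⬝ᵥ x = 0) → w m ⬝ᵥ x = 0
    · obtain ⟨a, ha⟩ := ih Ω hΩ fun x y hx hy => h x y
        (fun j hj => (Finset.mem_insert.1 hj).elim (fun e => e ▸ hcase x hx) (hx j))
        (fun j hj => (Finset.mem_insert.1 hj).elim (fun e => e ▸ hcase y hy) (hy j))
      refine ⟨Function.update a m 0, ?_⟩
      rw [Finset.sum_insert hm, Function.update_self, ha]
      have e1 : wdg (w m) (0 : I → F) = 0 := by
        ext u v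
        simp [wdg]
      rw [e1, zero_add]
      refine Finset.sum_congr rfl fun j hj => ?_
      rw [Function.update_of_ne (ne_of_mem_of_not_mem hj hm)]
    · push Not at hcase
      obtain ⟨t0, ht0, ht1⟩ := hcase
      obtain ⟨t, hts, htm⟩ : ∃ t : I → F, (∀ j ∈ s, w j ⬝ᵥ t = 0) ∧ w m ⬝ᵥ t = 1 :=
        ⟨(w m ⬝ᵥ t0)⁻¹ • t0, fun j hj => by rw [dotProduct_smul, ht0 j hj, smul_zero],
          by rw [dotProduct_smul, smul_eq_mul, inv_mul_cancel₀ ht1]⟩
      set b : I → F := - (Ω *ᵥ t) with hb
      have hbt : b ⬝ᵥ t = 0 := by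
        rw [hb, neg_dotProduct, dotProduct_comm, alt_dot_self hΩ, neg_zero]
      have hΩ' : Alt (Ω - wdg (w m) b) := hΩ.sub' (alt_wdg _ _)
      have key : ∀ y : I → F, (∀ j ∈ insert m s, w j ⬝ᵥ y = 0) → y ⬝ᵥ ((Ω - wdg (w m) b) *ᵥ t) = 0 := by
        intro y hy
        rw [Matrix.sub_mulVec, wdg_mulVec', hbt, htm, zero_smul, one_smul, zero_sub, sub_neg_eq_add, dotProduct_add,
          hb, dotProduct_neg, add_neg_cancel]
      have key2 : ∀ x y : I → F, (∀ j ∈ insert m s, w j ⬝ᵥ x = 0) → (∀ j ∈ insert m s, w j ⬝ᵥ y = 0) →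
          x ⬝ᵥ ((Ω - wdg (w m) b) *ᵥ y) = 0 := by
        intro x y hx hy
        rw [Matrix.sub_mulVec, wdg_mulVec', dotProduct_sub, h x y hx hy, dotProduct_sub, dotProduct_smul,
          dotProduct_smul, dotProduct_comm x (w m), hx m (Finset.mem_insert_self _ _),
          hy m (Finset.mem_insert_self _ _)]
        simp
      obtain ⟨a, ha⟩ := ih (Ω - wdg (w m) b) hΩ' (by
        intro x y hx hy
        set x' := x - (w m ⬝ᵥ x) • t with hx'
        set y' := y - (w m ⬝ᵥ y) • t with hy'
        have hx1 : ∀ j ∈ insert m s, w j ⬝ᵥ x' = 0 := by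
          intro j hj
          rw [hx', dotProduct_sub, dotProduct_smul]
          rcases Finset.mem_insert.1 hj with rfl | hj
          · rw [htm, smul_eq_mul, mul_one, sub_self]
          · rw [hx j hj, hts j hj, smul_zero, sub_self]
        have hy1 : ∀ j ∈ insert m s, w j ⬝ᵥ y' = 0 := by
          intro j hj
          rw [hy', dotProduct_sub, dotProduct_smul]
          rcases Finset.mem_insert.1 hj with rfl | hj
          · rw [htm, smul_eq_mul, mul_one, sub_self]
          · rw [hy j hj, hts j hj, smul_zero, sub_self]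
        have ex : x = x' + (w m ⬝ᵥ x) • t := by rw [hx', sub_add_cancel]
        have ey : y = y' + (w m ⬝ᵥ y) • t := by rw [hy', sub_add_cancel]
        rw [ex, ey, mulVec_add, mulVec_smul, add_dotProduct, dotProduct_add, dotProduct_add, smul_dotProduct,
          smul_dotProduct, dotProduct_smul, dotProduct_smul, key2 x' y' hx1 hy1, key x' hx1,
          alt_dot_self hΩ' t, alt_dot hΩ' t y', key y' hy1]
        simp)
      refine ⟨Function.update a m b, ?_⟩
      rw [Finset.sum_insert hm, Function.update_self]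
      have e2 : Ω = wdg (w m) b + (Ω - wdg (w m) b) := by abel
      rw [e2, ha]
      have e3 : ∑ j ∈ s, wdg (w j) (Function.update a m b j) = ∑ j ∈ s, wdg (w j) (a j) :=
        Finset.sum_congr rfl fun j hj => by rw [Function.update_of_ne (ne_of_mem_of_not_mem hj hm)]
      rw [e3, ← ha]

end

section

variable {I : Type*} [Fintype I] [DecidableEq I]

/-- the translate of `B` by the matrices of the relations is a sum of `g - 1` decomposable matrices modulo `m` -/
def GoodMod {κ : Type*} [Fintype κ] (g : ℕ) (W : κ → I → I → ℤ) (B : Matrix I I ℤ) (m : ℕ) : Prop :=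
  ∃ (c : κ → ℤ) (e f : Fin (g - 1) → I → ℤ), ∀ u v,
    (m : ℤ) ∣ (B + ∑ i, c i • dif (W i)) u v - (∑ i, wdg (e i) (f i)) u v

theorem red_apply (p : ℕ) (b : Matrix I I ℤ) (u v : I) : red p b u v = (b u v : ZMod p) := rfl

/-- **Lifting.** -/
theorem hensel (p : ℕ) [Fact p.Prime] (g : ℕ) (hg : 0 < g) (hI : Fintype.card I = 2 * g) (B D : Matrix I I ℤ)
    (hB : Alt B) (hD : Alt D) (h : IsSimp (red p D) (red p B)) : ∀ k : ℕ,
    ∃ (c : ℤ) (e f : Fin (g - 1) → I → ℤ), (p : ℤ) ∣ c ∧ ∀ u v,
      ((p : ℤ) ^ (k + 1)) ∣ (B + c • D) u v - (∑ i, wdg (e i) (f i)) u v := by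
  classical
  haveI : NeZero p := ⟨(Fact.out : p.Prime).ne_zero⟩
  obtain ⟨x0, y0, hx0, hy0, hxy, hspan⟩ := h
  intro k
  induction k with
  | zero =>
    have hdet : (red p B).det = 0 := by
      rw [← Matrix.exists_mulVec_eq_zero_iff]
      refine ⟨y0, ?_, hy0⟩
      rintro rfl
      rw [mulVec_zero, dotProduct_zero] at hxy
      exact hxy rfl
    obtain ⟨e, f, hef⟩ := sing_decomp g hg hI (red p B) (hB.map' _) hdet
    refine ⟨0, fun i u => (e i u).val, fun i u => (f i u).val, dvd_zero _, fun u v => ?_⟩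
    rw [zero_smul, add_zero, zero_add, pow_one, ← ZMod.intCast_zmod_eq_zero_iff_dvd, Int.cast_sub, sub_eq_zero,
      ← red_apply, hef, Matrix.sum_apply, Matrix.sum_apply, Int.cast_sum]
    refine Finset.sum_congr rfl fun i _ => ?_
    simp only [wdg, Matrix.of_apply]
    push_cast
    simp only [ZMod.natCast_val, ZMod.cast_id', id]
  | succ k ih =>
    obtain ⟨c, e, f, hc, hcef⟩ := ih
    choose E hE using hcef
    let E' : Matrix I I ℤ := Matrix.of E
    have hpk : ((p : ℤ) ^ (k + 1)) ≠ 0 := pow_ne_zero _ (by exact_mod_cast (Fact.out : p.Prime).ne_zero)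
    set Sg : Matrix I I ℤ := ∑ i, wdg (e i) (f i) with hSg
    have hSgalt : Alt Sg := Alt.sum _ _ fun i => alt_wdg _ _
    have hBcD : Alt (B + c • D) := hB.add (hD.smul _)
    have hEalt : Alt E' := by
      constructor
      · intro u
        have h1 := hE u u
        rw [hBcD.1, hSgalt.1, sub_zero] at h1
        exact (mul_eq_zero.1 h1.symm).resolve_left hpk
      · intro u v
        have h1 := hE u v
        rw [hBcD.2 u v, hSgalt.2 u v] at h1
        have h2 := hE v u
        have h3 : (p : ℤ) ^ (k + 1) * (E u v + E v u) = 0 := by linear_combination -h1 - h2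
        have h4 := (mul_eq_zero.1 h3).resolve_left hpk
        change E u v = - E v u
        linear_combination h4
    -- modulo `p`
    let eb : Fin (g - 1) → I → ZMod p := fun i u => e i u
    let fb : Fin (g - 1) → I → ZMod p := fun i u => f i u
    have hBp : red p B = ∑ i, wdg (eb i) (fb i) := by
      ext u v
      have h1 : (p : ℤ) ∣ (B + c • D) u v - Sg u v := (dvd_pow_self _ (Nat.succ_ne_zero k)).trans ⟨E u v, hE u v⟩
      rw [← ZMod.intCast_zmod_eq_zero_iff_dvd, Int.cast_sub, sub_eq_zero, Matrix.add_apply, Int.cast_add,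
        Matrix.smul_apply, smul_eq_mul, Int.cast_mul, (ZMod.intCast_zmod_eq_zero_iff_dvd _ _).2 hc, zero_mul,
        add_zero] at h1
      rw [red_apply, h1, hSg, Matrix.sum_apply, Matrix.sum_apply, Int.cast_sum]
      refine Finset.sum_congr rfl fun i _ => ?_
      simp only [wdg, Matrix.of_apply, eb, fb]
      push_cast
      rfl
    set c' : ZMod p := - (x0 ⬝ᵥ (red p E' *ᵥ y0)) / (x0 ⬝ᵥ (red p D *ᵥ y0)) with hc'
    have hΩ : Alt (red p E' + c' • red p D) := (hEalt.map' _).add ((hD.map' _).smul _)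
    have hΩ0 : x0 ⬝ᵥ ((red p E' + c' • red p D) *ᵥ y0) = 0 := by
      rw [add_mulVec, smul_mulVec, dotProduct_add, dotProduct_smul, hc', smul_eq_mul, div_mul_cancel₀ _ hxy]
      ring
    obtain ⟨a, ha⟩ := exists_wdg (Finset.univ : Finset (Fin (g - 1) ⊕ Fin (g - 1))) (Sum.elim eb fb)
      (red p E' + c' • red p D) hΩ (by
        intro x y hx hy
        have key : ∀ x : I → ZMod p, (∀ j ∈ (Finset.univ : Finset (Fin (g - 1) ⊕ Fin (g - 1))),
            Sum.elim eb fb j ⬝ᵥ x = 0) → red p B *ᵥ x = 0 := by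
          intro x hx
          rw [hBp, Matrix.sum_mulVec]
          refine Finset.sum_eq_zero fun i _ => ?_
          rw [wdg_mulVec']
          have h1 := hx (Sum.inl i) (Finset.mem_univ _)
          have h2 := hx (Sum.inr i) (Finset.mem_univ _)
          rw [Sum.elim_inl] at h1
          rw [Sum.elim_inr] at h2
          rw [h1, h2, zero_smul, zero_smul, sub_zero]
        obtain ⟨a1, a2, rfl⟩ := hspan x (key x hx)
        obtain ⟨b1, b2, rfl⟩ := hspan y (key y hy)
        rw [mulVec_add, mulVec_smul, mulVec_smul]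
        simp only [add_dotProduct, dotProduct_add, smul_dotProduct, dotProduct_smul]
        rw [alt_dot_self hΩ, alt_dot_self hΩ, alt_dot hΩ y0 x0, hΩ0]
        simp)
    rw [Fintype.sum_sum_type] at ha
    simp only [Sum.elim_inl, Sum.elim_inr] at ha
    let α : Fin (g - 1) → I → ℤ := fun i u => (a (Sum.inl i) u).val
    let β : Fin (g - 1) → I → ℤ := fun i u => (a (Sum.inr i) u).val
    have hα : ∀ i u, ((α i u : ℤ) : ZMod p) = a (Sum.inl i) u := fun i u => by
      simp only [α]
      push_cast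
      simp only [ZMod.natCast_val, ZMod.cast_id', id]
    have hβ : ∀ i u, ((β i u : ℤ) : ZMod p) = a (Sum.inr i) u := fun i u => by
      simp only [β]
      push_cast
      simp only [ZMod.natCast_val, ZMod.cast_id', id]
    have hc2 : (((c'.val : ℕ) : ℤ) : ZMod p) = c' := vcast c'
    refine ⟨c + p ^ (k + 1) * (c'.val : ℤ), fun i u => e i u - p ^ (k + 1) * β i u,
      fun i u => f i u + p ^ (k + 1) * α i u, ?_, fun u v => ?_⟩
    · exact dvd_add hc ((dvd_pow_self _ (Nat.succ_ne_zero k)).mul_right _)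
    · have h1 := hE u v
      have h2 : (p : ℤ) ∣ E u v + (c'.val : ℤ) * D u v -
          (∑ i, (wdg (e i) (α i) u v + wdg (f i) (β i) u v)) := by
        rw [← ZMod.intCast_zmod_eq_zero_iff_dvd]
        have h3 := congrFun (congrFun ha u) v
        rw [Matrix.add_apply, Matrix.smul_apply, red_apply, red_apply, Matrix.add_apply, Matrix.sum_apply,
          Matrix.sum_apply] at h3
        push_cast
        rw [← Finset.sum_add_distrib] at h3
        have h4 : ∑ i, (((wdg (e i) (α i) u v : ℤ) : ZMod p) + ((wdg (f i) (β i) u v : ℤ) : ZMod p)) =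
            ∑ i, (wdg (eb i) (a (Sum.inl i)) u v + wdg (fb i) (a (Sum.inr i)) u v) := by
          refine Finset.sum_congr rfl fun i _ => ?_
          simp only [wdg, Matrix.of_apply, eb, fb]
          push_cast
          simp only [hα, hβ]
        rw [h4, ← h3]
        have h5 : ((c'.val : ℕ) : ZMod p) = c' := by
          simp only [ZMod.natCast_val, ZMod.cast_id', id]
        rw [h5]
        simp only [smul_eq_mul]
        exact sub_self _
      obtain ⟨m, hm⟩ := h2
      have h6 : (B + (c + p ^ (k + 1) * (c'.val : ℤ)) • D) u v -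
          (∑ i, wdg (fun u => e i u - p ^ (k + 1) * β i u) (fun u => f i u + p ^ (k + 1) * α i u)) u v =
          (p : ℤ) ^ (k + 1 + 1) * m + (p : ℤ) ^ (k + 1 + 1) * ((p : ℤ) ^ k * ∑ i, wdg (β i) (α i) u v) := by
        have h7 : (∑ i, wdg (fun u => e i u - p ^ (k + 1) * β i u) (fun u => f i u + p ^ (k + 1) * α i u)) u v =
            Sg u v + (p : ℤ) ^ (k + 1) * (∑ i, (wdg (e i) (α i) u v + wdg (f i) (β i) u v)) -
              (p : ℤ) ^ (k + 1) * ((p : ℤ) ^ (k + 1) * ∑ i, wdg (β i) (α i) u v) := by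
          rw [hSg, Matrix.sum_apply, Matrix.sum_apply, Finset.mul_sum, Finset.mul_sum, Finset.mul_sum,
            ← Finset.sum_add_distrib, ← Finset.sum_sub_distrib]
          refine Finset.sum_congr rfl fun i _ => ?_
          simp only [wdg, Matrix.of_apply]
          ring
        rw [h7]
        simp only [Matrix.add_apply, Matrix.smul_apply, smul_eq_mul] at h1 ⊢
        have h8 : B u v + c * D u v = Sg u v + (p : ℤ) ^ (k + 1) * E u v := by linear_combination h1
        calc B u v + (c + p ^ (k + 1) * (c'.val : ℤ)) * D u v - _ =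
            (p : ℤ) ^ (k + 1) * (E u v + (c'.val : ℤ) * D u v -
              ∑ i, (wdg (e i) (α i) u v + wdg (f i) (β i) u v)) +
              (p : ℤ) ^ (k + 1) * ((p : ℤ) ^ (k + 1) * ∑ i, wdg (β i) (α i) u v) := by
              linear_combination h8
          _ = _ := by
              rw [hm]
              ring
      rw [h6]
      exact dvd_add (dvd_mul_right _ _) (dvd_mul_right _ _)

end

end Pool.Agent.V5helper95.PI
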