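import Mathlib
import Pool.Agent.V5helper95.PI.Hens

/-! Degenerate translates modulo `n`. -/

set_option autoImplicit false
set_option linter.all false

open Matrix

noncomputable section

namespace Pool.Agent.V5helper95.PI

open Pool.Agent.Y109.PI

/-- simultaneous congruences modulo the prime powers in `n` -/
theorem crt_pow (n : ℕ) (hn : 0 < n) (a : ℕ → ℤ) :
    ∃ x : ℤ, ∀ p : ℕ, p.Prime → p ∣ n → (x : ZMod (p ^ n.factorization p)) = a p := by
  classical
  obtain ⟨k, hk⟩ := Nat.chineseRemainderOfFinset (fun p => (a p : ZMod (p ^ n.factorization p)).val)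
    (fun p => p ^ n.factorization p) n.primeFactors
    (fun p hp => pow_ne_zero _ (Nat.prime_of_mem_primeFactors hp).ne_zero)
    (fun p hp q hq hpq => Nat.Coprime.pow _ _ ((Nat.coprime_primes (Nat.prime_of_mem_primeFactors hp)
      (Nat.prime_of_mem_primeFactors hq)).2 hpq))
  refine ⟨k, fun p hp hpn => ?_⟩
  haveI : NeZero (p ^ n.factorization p) := ⟨pow_ne_zero _ hp.ne_zero⟩
  have h3 := hk p (Nat.mem_primeFactors.2 ⟨hp, hpn, hn.ne'⟩)
  have h4 := (ZMod.natCast_eq_natCast_iff _ _ _).2 h3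
  rw [Int.cast_natCast, h4, ZMod.natCast_val, ZMod.cast_id]

theorem crt_pow_fun {ι : Type*} (n : ℕ) (hn : 0 < n) (a : ℕ → ι → ℤ) :
    ∃ x : ι → ℤ, ∀ p : ℕ, p.Prime → p ∣ n → ∀ i, (x i : ZMod (p ^ n.factorization p)) = a p i := by
  choose x hx using fun i => crt_pow n hn (fun p => a p i)
  exact ⟨x, fun p hp hpn i => hx i p hp hpn⟩

theorem dvd_of_prime_pow (n : ℕ) (hn : 0 < n) (x : ℤ)
    (h : ∀ p : ℕ, p.Prime → p ∣ n → ((p ^ n.factorization p : ℕ) : ℤ) ∣ x) : (n : ℤ) ∣ x := by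
  rw [Int.natCast_dvd]
  rw [Nat.dvd_iff_prime_pow_dvd_dvd]
  intro p k hp hpk
  rcases Nat.eq_zero_or_pos k with rfl | hk
  · rw [pow_zero]
    exact one_dvd _
  · have h1 : p ∣ n := (dvd_pow_self p hk.ne').trans hpk
    have h2 := Int.natCast_dvd.1 (h p hp h1)
    exact (pow_dvd_pow p ((hp.pow_dvd_iff_le_factorization hn.ne').1 hpk)).trans h2

section

variable {I κ : Type*} [Fintype I] [DecidableEq I] [Fintype κ] [DecidableEq κ]

theorem red_add_sum' (p : ℕ) (b : Matrix I I ℤ) (c : κ → ℤ) (j : κ → Matrix I I ℤ) :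
    red p (b + ∑ i, c i • j i) = red p b + ∑ i, (c i : ZMod p) • red p (j i) := by
  ext u v
  simp only [red, Matrix.map_apply, Matrix.add_apply, Matrix.sum_apply, Matrix.smul_apply, map_add, map_sum,
    smul_eq_mul, map_mul, eq_intCast]

/-- a degenerate translate modulo `p` -/
theorem good_deg {p : ℕ} [Fact p.Prime] {g : ℕ} (hg : 0 < g) (hI : Fintype.card I = 2 * g)
    (W : κ → I → I → ℤ) (B : Matrix I I ℤ) (hB : Alt B) (c : κ → ZMod p)
    (h : (red p B + ∑ i, c i • red p (dif (W i))).det = 0) : GoodMod g W B p := by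
  haveI : NeZero p := ⟨(Fact.out : p.Prime).ne_zero⟩
  have h1 : red p (B + ∑ i, ((c i).val : ℤ) • dif (W i)) = red p B + ∑ i, c i • red p (dif (W i)) := by
    rw [red_add_sum']
    simp only [vcast]
  obtain ⟨e, f, hef⟩ := sing_decomp g hg hI (red p (B + ∑ i, ((c i).val : ℤ) • dif (W i)))
    ((hB.add (Alt.sum _ _ fun i => (alt_dif (W i)).smul _)).map' _) (by rw [h1]; exact h)
  refine ⟨fun i => (c i).val, fun i u => (e i u).val, fun i u => (f i u).val, fun u v => ?_⟩
  rw [← ZMod.intCast_zmod_eq_zero_iff_dvd, Int.cast_sub, sub_eq_zero, ← red_apply, hef, Matrix.sum_apply,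
    Matrix.sum_apply, Int.cast_sum]
  refine Finset.sum_congr rfl fun i _ => ?_
  simp only [wdg, Matrix.of_apply]
  push_cast
  simp only [ZMod.natCast_val, ZMod.cast_id', id]

/-- a simple translate modulo `p` gives a translate modulo all powers of `p` -/
theorem good_simp {p : ℕ} [Fact p.Prime] {g : ℕ} (hg : 0 < g) (hI : Fintype.card I = 2 * g)
    (W : κ → I → I → ℤ) (B : Matrix I I ℤ) (hB : Alt B) (c : κ → ZMod p) (i0 : κ)
    (h : IsSimp (red p (dif (W i0))) (red p B + ∑ i, c i • red p (dif (W i)))) (k : ℕ) :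
    GoodMod g W B (p ^ (k + 1)) := by
  haveI : NeZero p := ⟨(Fact.out : p.Prime).ne_zero⟩
  have h1 : red p (B + ∑ i, ((c i).val : ℤ) • dif (W i)) = red p B + ∑ i, c i • red p (dif (W i)) := by
    rw [red_add_sum']
    simp only [vcast]
  rw [← h1] at h
  obtain ⟨c', e, f, -, hef⟩ := hensel p g hg hI _ _ (hB.add (Alt.sum _ _ fun i => (alt_dif (W i)).smul _))
    (alt_dif (W i0)) h k
  refine ⟨fun i => ((c i).val : ℤ) + if i = i0 then c' else 0, e, f, fun u v => ?_⟩
  have h2 := hef u v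
  have e1 : B + ∑ i, (((c i).val : ℤ) + if i = i0 then c' else 0) • dif (W i) =
      B + ∑ i, ((c i).val : ℤ) • dif (W i) + c' • dif (W i0) := by
    simp only [_root_.add_smul, Finset.sum_add_distrib, ite_smul, zero_smul, Finset.sum_ite_eq', Finset.mem_univ,
      if_true, add_assoc]
  rw [e1]
  push_cast
  exact h2

theorem good_crt (n : ℕ) (hn : 0 < n) {g : ℕ} (W : κ → I → I → ℤ) (B : Matrix I I ℤ)
    (h : ∀ p : ℕ, p.Prime → p ∣ n → GoodMod g W B (p ^ n.factorization p)) : GoodMod g W B n := by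
  classical
  have h1 : ∀ p : ℕ, ∃ (c : κ → ℤ) (e f : Fin (g - 1) × I → ℤ), p.Prime → p ∣ n → ∀ u v,
      ((p ^ n.factorization p : ℕ) : ℤ) ∣ (B + ∑ i, c i • dif (W i)) u v -
        (∑ i, wdg (fun u => e (i, u)) (fun u => f (i, u))) u v := by
    intro p
    by_cases hp : p.Prime ∧ p ∣ n
    · obtain ⟨c, e, f, hcef⟩ := h p hp.1 hp.2
      exact ⟨c, fun q => e q.1 q.2, fun q => f q.1 q.2, fun _ _ => hcef⟩
    · exact ⟨0, 0, 0, fun a b => absurd ⟨a, b⟩ hp⟩
  choose a e f haef using h1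
  obtain ⟨x, hx⟩ := crt_pow_fun n hn a
  obtain ⟨y, hy⟩ := crt_pow_fun n hn e
  obtain ⟨y', hy'⟩ := crt_pow_fun n hn f
  refine ⟨x, fun i u => y (i, u), fun i u => y' (i, u), fun u v => ?_⟩
  refine dvd_of_prime_pow n hn _ fun p hp hpn => ?_
  have h2 := haef p hp hpn u v
  rw [← ZMod.intCast_zmod_eq_zero_iff_dvd] at h2 ⊢
  rw [← h2]
  simp only [Matrix.add_apply, Matrix.sum_apply, Matrix.smul_apply, smul_eq_mul, wdg, Matrix.of_apply, Int.cast_sub,
    Int.cast_add, Int.cast_sum, Int.cast_mul, hx p hp hpn, hy p hp hpn, hy' p hp hpn]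

end

end Pool.Agent.V5helper95.PI
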