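import Mathlib
import Pool.Agent.Y109.PI.Ord

/-! Counting alternating matrices with given kernel vectors over a finite field. -/

set_option autoImplicit false
set_option linter.all false

open Matrix Finset

noncomputable section

namespace Pool.Agent.V5helper95.PI

open Pool.Agent.Y109.PI

/-- all fibres of a surjective homomorphism have the same number of elements -/
theorem fib {G H : Type*} [AddGroup G] [AddGroup H] [Fintype G] [Fintype H] [DecidableEq H]
    (f : G →+ H) (hf : Function.Surjective f) (h : H) :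
    (univ.filter fun g => f g = h).card * Fintype.card H = Fintype.card G := by
  classical
  have h1 : ∀ h', (univ.filter fun g => f g = h').card = (univ.filter fun g => f g = h).card := by
    intro h'
    obtain ⟨a, ha⟩ := hf (-h' + h)
    refine Finset.card_bij (fun g _ => g + a) ?_ ?_ ?_
    · intro g hg
      rw [mem_filter] at hg ⊢
      refine ⟨mem_univ _, ?_⟩
      rw [map_add, hg.2, ha, add_neg_cancel_left]
    · intro g _ g' _ e
      exact add_right_cancel e
    · intro g hg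
      rw [mem_filter] at hg
      refine ⟨g + -a, ?_, by rw [neg_add_cancel_right]⟩
      rw [mem_filter]
      refine ⟨mem_univ _, ?_⟩
      rw [map_add, map_neg, hg.2, ha, neg_add_rev, neg_neg, add_neg_cancel_left]
  have h2 := Finset.card_eq_sum_card_fiberwise (f := f) (s := univ) (t := univ) (by simp)
  rw [Finset.sum_congr rfl fun x _ => h1 x, sum_const, smul_eq_mul, Finset.card_univ, Finset.card_univ] at h2
  rw [h2, mul_comm]

/-- the fibres of a homomorphism whose range is given by a surjective homomorphism -/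
theorem fib2 {G H L : Type*} [AddCommGroup G] [AddCommGroup H] [AddCommGroup L] [Fintype G] [Fintype H]
    [Fintype L] [DecidableEq H] (f : G →+ H) (φ : H →+ L) (hφ : Function.Surjective φ)
    (hr : ∀ h, φ h = 0 ↔ ∃ g, f g = h) (h : H) (hh : φ h = 0) :
    (univ.filter fun g => f g = h).card * Fintype.card H = Fintype.card G * Fintype.card L := by
  classical
  let K := φ.ker
  let f' : G →+ K := f.codRestrict K fun g => (hr _).2 ⟨g, rfl⟩
  have hf' : Function.Surjective f' := by
    rintro ⟨x, hx⟩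
    obtain ⟨g, hg⟩ := (hr x).1 hx
    exact ⟨g, Subtype.ext hg⟩
  have h1 := fib f' hf' ⟨h, hh⟩
  have h2 := fib φ hφ 0
  have h3 : (univ.filter fun g => f' g = ⟨h, hh⟩) = univ.filter fun g => f g = h := by
    ext g
    simp only [mem_filter, mem_univ, true_and, Subtype.ext_iff, f']
    rfl
  have h4 : Fintype.card K = (univ.filter fun x => φ x = 0).card := by
    rw [Fintype.card_subtype]
    refine congrArg Finset.card (Finset.ext fun x => ?_)
    rw [mem_filter, mem_filter]
    exact Iff.rfl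
  rw [h3, h4] at h1
  rw [← h1, ← h2]
  ring

variable {F : Type*} [Field F] [Fintype F] [DecidableEq F] {I : Type*} [Fintype I] [DecidableEq I]

variable (F I) in
/-- the space of alternating matrices -/
def altS : Submodule F (Matrix I I F) where
  carrier := {w | Alt w}
  add_mem' := fun {a b} ha hb => ⟨fun u => by rw [Matrix.add_apply, ha.1, hb.1, add_zero], fun u v => by
    rw [Matrix.add_apply, Matrix.add_apply, ha.2 u v, hb.2 u v]; ring⟩
  zero_mem' := ⟨fun u => rfl, fun u v => by simp⟩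
  smul_mem' := fun c a ha => ⟨fun u => by rw [Matrix.smul_apply, ha.1, smul_zero], fun u v => by
    rw [Matrix.smul_apply, Matrix.smul_apply, ha.2 u v, smul_neg]⟩

instance : Fintype (altS F I) := Fintype.ofFinite _

theorem wdg_mulVec (e f x : I → F) : wdg e f *ᵥ x = (f ⬝ᵥ x) • e - (e ⬝ᵥ x) • f := by
  funext u
  simp only [mulVec, dotProduct, wdg, Matrix.of_apply, Pi.sub_apply, Pi.smul_apply, smul_eq_mul,
    Finset.sum_mul, ← Finset.sum_sub_distrib]
  exact Finset.sum_congr rfl fun i _ => by ring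

omit [Fintype F] [DecidableEq F] in
theorem exists_dual {u : I → F} (hu : u ≠ 0) : ∃ φ : I → F, φ ⬝ᵥ u = 1 := by
  obtain ⟨i, hi⟩ := Function.ne_iff.1 hu
  refine ⟨Pi.single i (u i)⁻¹, ?_⟩
  rw [single_dotProduct]
  exact inv_mul_cancel₀ hi

omit [Fintype F] [DecidableEq F] in
theorem exists_dual2 {u v : I → F} (hu : u ≠ 0) (hv : ∀ c : F, v ≠ c • u) :
    ∃ ψ : I → F, ψ ⬝ᵥ u = 0 ∧ ψ ⬝ᵥ v = 1 := by
  obtain ⟨i, hi⟩ := Function.ne_iff.1 hu
  change u i ≠ 0 at hi
  have h1 : v - (v i / u i) • u ≠ 0 := fun h => hv _ (sub_eq_zero.1 h)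
  obtain ⟨j, hj⟩ := Function.ne_iff.1 h1
  rw [Pi.sub_apply, Pi.smul_apply, Pi.zero_apply, smul_eq_mul] at hj
  refine ⟨Pi.single j (v j - v i / u i * u j)⁻¹ - Pi.single i (u j / u i * (v j - v i / u i * u j)⁻¹), ?_, ?_⟩
  · rw [sub_dotProduct, single_dotProduct, single_dotProduct]
    field_simp
    ring
  · rw [sub_dotProduct, single_dotProduct, single_dotProduct]
    have : (v j - v i / u i * u j)⁻¹ * v j - u j / u i * (v j - v i / u i * u j)⁻¹ * v i =
      (v j - v i / u i * u j)⁻¹ * (v j - v i / u i * u j) := by ring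
    rw [this]
    exact inv_mul_cancel₀ hj

/-- the number of alternating matrices -/
def cA (F I : Type*) [Field F] [Fintype F] [DecidableEq F] [Fintype I] [DecidableEq I] : ℕ :=
  Fintype.card (altS F I)

theorem cA_pos : 0 < cA F I := Fintype.card_pos

/-- alternating matrices which kill a vector -/
theorem cnt1 {u : I → F} (hu : u ≠ 0) :
    (univ.filter fun w : altS F I => (w : Matrix I I F) *ᵥ u = 0).card * Fintype.card F ^ Fintype.card I =
      cA F I * Fintype.card F := by
  obtain ⟨φ, hφ⟩ := exists_dual hu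
  let f : altS F I →+ (I → F) :=
    { toFun := fun w => (w : Matrix I I F) *ᵥ u
      map_zero' := by rw [Submodule.coe_zero, zero_mulVec]
      map_add' := fun a b => by rw [Submodule.coe_add, add_mulVec] }
  let d : (I → F) →+ F :=
    { toFun := fun a => a ⬝ᵥ u
      map_zero' := zero_dotProduct _
      map_add' := fun a b => add_dotProduct _ _ _ }
  have h1 := fib2 f d (fun x => ⟨x • φ, by
    change (x • φ) ⬝ᵥ u = x
    rw [smul_dotProduct, hφ, smul_eq_mul, mul_one]⟩) (by
    intro a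
    constructor
    · intro ha
      change a ⬝ᵥ u = 0 at ha
      refine ⟨⟨wdg a φ, alt_wdg a φ⟩, ?_⟩
      change wdg a φ *ᵥ u = a
      rw [wdg_mulVec, hφ, ha, one_smul, zero_smul, sub_zero]
    · rintro ⟨w, rfl⟩
      change ((w : Matrix I I F) *ᵥ u) ⬝ᵥ u = 0
      rw [dotProduct_comm]
      exact alt_dot_self w.2 u) 0 (zero_dotProduct _)
  rw [Fintype.card_fun] at h1
  exact h1

/-- alternating matrices with given values at two independent vectors -/
theorem cnt2 {u v : I → F} (hu : u ≠ 0) (hv : ∀ c : F, v ≠ c • u) (a b : I → F)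
    (ha : a ⬝ᵥ u = 0) (hb : b ⬝ᵥ v = 0) (hab : a ⬝ᵥ v + b ⬝ᵥ u = 0) :
    (univ.filter fun w : altS F I => (w : Matrix I I F) *ᵥ u = a ∧ (w : Matrix I I F) *ᵥ v = b).card *
        Fintype.card F ^ (2 * Fintype.card I) = cA F I * Fintype.card F ^ 3 := by
  obtain ⟨ψ, hψ1, hψ2⟩ := exists_dual2 hu hv
  have hv0 : v ≠ 0 := fun h => hv 0 (by rw [h, zero_smul])
  obtain ⟨φ, hφ2, hφ1⟩ := exists_dual2 hv0 (v := u) (fun c h => by
    have hc : c ≠ 0 := by
      rintro rfl
      rw [zero_smul] at h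
      exact hu h
    exact hv c⁻¹ (by rw [h, smul_smul, inv_mul_cancel₀ hc, one_smul]))
  let f : altS F I →+ (I → F) × (I → F) :=
    { toFun := fun w => ((w : Matrix I I F) *ᵥ u, (w : Matrix I I F) *ᵥ v)
      map_zero' := by rw [Submodule.coe_zero, zero_mulVec, zero_mulVec]; rfl
      map_add' := fun a b => by rw [Submodule.coe_add, add_mulVec, add_mulVec]; rfl }
  let d : (I → F) × (I → F) →+ F × F × F :=
    { toFun := fun x => (x.1 ⬝ᵥ u, x.2 ⬝ᵥ v, x.1 ⬝ᵥ v + x.2 ⬝ᵥ u)
      map_zero' := by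
        simp only [Prod.fst_zero, Prod.snd_zero, zero_dotProduct, add_zero]
        rfl
      map_add' := fun a b => by
        simp only [Prod.fst_add, Prod.snd_add, add_dotProduct, Prod.mk_add_mk]
        congr 2
        ring }
  have h1 := fib2 f d (fun x => ⟨(x.1 • φ + x.2.2 • ψ, x.2.1 • ψ), by
    change ((x.1 • φ + x.2.2 • ψ) ⬝ᵥ u, (x.2.1 • ψ) ⬝ᵥ v,
      (x.1 • φ + x.2.2 • ψ) ⬝ᵥ v + (x.2.1 • ψ) ⬝ᵥ u) = x
    simp only [add_dotProduct, smul_dotProduct, hφ1, hφ2, hψ1, hψ2, smul_eq_mul, mul_one, mul_zero,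
      add_zero, zero_add]⟩) (by
    intro x
    constructor
    · intro hx
      have e1 : x.1 ⬝ᵥ u = 0 := congrArg Prod.fst hx
      have e2 : x.2 ⬝ᵥ v = 0 := congrArg (fun y => y.2.1) hx
      have e3 : x.1 ⬝ᵥ v + x.2 ⬝ᵥ u = 0 := congrArg (fun y => y.2.2) hx
      have e4 : x.2 ⬝ᵥ u = - (x.1 ⬝ᵥ v) := by linear_combination e3
      refine ⟨⟨wdg x.1 φ + wdg x.2 ψ + (x.1 ⬝ᵥ v) • wdg φ ψ, ?_⟩, ?_⟩
      · exact (altS F I).add_mem ((altS F I).add_mem (alt_wdg _ _) (alt_wdg _ _))
          ((altS F I).smul_mem _ (alt_wdg _ _))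
      · change ((wdg x.1 φ + wdg x.2 ψ + (x.1 ⬝ᵥ v) • wdg φ ψ) *ᵥ u,
          (wdg x.1 φ + wdg x.2 ψ + (x.1 ⬝ᵥ v) • wdg φ ψ) *ᵥ v) = x
        simp only [add_mulVec, smul_mulVec, wdg_mulVec, hφ1, hφ2, hψ1, hψ2, e1, e2, e4]
        refine Prod.ext ?_ ?_
        · funext i
          simp only [Pi.add_apply, Pi.sub_apply, Pi.smul_apply, smul_eq_mul]
          ring
        · funext i
          simp only [Pi.add_apply, Pi.sub_apply, Pi.smul_apply, smul_eq_mul]
          ring
    · rintro ⟨w, rfl⟩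
      change (((w : Matrix I I F) *ᵥ u) ⬝ᵥ u, ((w : Matrix I I F) *ᵥ v) ⬝ᵥ v,
        ((w : Matrix I I F) *ᵥ u) ⬝ᵥ v + ((w : Matrix I I F) *ᵥ v) ⬝ᵥ u) = 0
      rw [dotProduct_comm _ u, dotProduct_comm _ v, dotProduct_comm _ v, dotProduct_comm _ u,
        alt_dot_self w.2 u, alt_dot_self w.2 v, alt_dot w.2 v u]
      simp) (a, b) (by
        change (a ⬝ᵥ u, b ⬝ᵥ v, a ⬝ᵥ v + b ⬝ᵥ u) = 0
        rw [ha, hb, hab]
        rfl)
  have e1 : (univ.filter fun w => f w = (a, b)) = univ.filter fun w : altS F I =>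
      (w : Matrix I I F) *ᵥ u = a ∧ (w : Matrix I I F) *ᵥ v = b := by
    ext w
    simp only [mem_filter, mem_univ, true_and]
    exact Prod.mk_inj
  rw [e1, Fintype.card_prod, Fintype.card_fun, Fintype.card_prod, Fintype.card_prod] at h1
  rw [two_mul, pow_add, h1]
  change Fintype.card (altS F I) * _ = cA F I * _
  rw [cA]
  ring

end Pool.Agent.V5helper95.PI
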