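import Mathlib
import Pool.Agent.V5helper95.PI.Cnt

/-! The first two moments of the number of kernel vectors of an alternating matrix over a finite field. -/

set_option autoImplicit false
set_option linter.all false

open Matrix Finset

noncomputable section

namespace Pool.Agent.V5helper95.PI

open Pool.Agent.Y109.PI

variable {F : Type*} [Field F] [Fintype F] [DecidableEq F] {I : Type*} [Fintype I] [DecidableEq I]

/-- the number of nonzero kernel vectors -/
def kk (w : altS F I) : ℕ := (univ.filter fun u : I → F => u ≠ 0 ∧ (w : Matrix I I F) *ᵥ u = 0).card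

theorem line_card {u : I → F} (hu : u ≠ 0) :
    (univ.filter fun v : I → F => ∃ c : F, v = c • u).card = Fintype.card F := by
  classical
  have h1 : (univ.filter fun v : I → F => ∃ c : F, v = c • u) = univ.image fun c : F => c • u := by
    ext v
    simp only [mem_filter, mem_univ, true_and, mem_image]
    exact ⟨fun ⟨c, hc⟩ => ⟨c, hc.symm⟩, fun ⟨c, hc⟩ => ⟨c, hc.symm⟩⟩
  rw [h1, Finset.card_image_of_injective _ (smul_left_injective F hu), Finset.card_univ]

theorem hyper_card {a : I → F} (ha : a ≠ 0) :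
    (univ.filter fun v : I → F => v ⬝ᵥ a = 0).card * Fintype.card F = Fintype.card F ^ Fintype.card I := by
  obtain ⟨φ, hφ⟩ := exists_dual ha
  let d : (I → F) →+ F :=
    { toFun := fun v => v ⬝ᵥ a
      map_zero' := zero_dotProduct _
      map_add' := fun x y => add_dotProduct _ _ _ }
  have h1 := fib d (fun x => ⟨x • φ, by
    change (x • φ) ⬝ᵥ a = x
    rw [smul_dotProduct, hφ, smul_eq_mul, mul_one]⟩) 0
  rw [Fintype.card_fun] at h1
  exact h1

theorem q_pos : (0 : ℚ) < Fintype.card F := by exact_mod_cast Fintype.card_pos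

theorem q_ge : (2 : ℚ) ≤ Fintype.card F := by
  have := Fintype.one_lt_card (α := F)
  exact_mod_cast this

variable (F I) in
/-- the number of vectors -/
def X : ℚ := (Fintype.card F : ℚ) ^ Fintype.card I

theorem X_pos : 0 < X F I := pow_pos q_pos _

variable (F I) in
/-- the number of alternating matrices which kill a vector -/
def c1 : ℚ := cA F I * Fintype.card F / X F I

variable (F I) in
/-- the number of alternating matrices which kill a plane -/
def c2 : ℚ := cA F I * (Fintype.card F : ℚ) ^ 3 / X F I ^ 2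

theorem cnt1' {u : I → F} (hu : u ≠ 0) :
    ((univ.filter fun w : altS F I => (w : Matrix I I F) *ᵥ u = 0).card : ℚ) = c1 F I := by
  have h := cnt1 (F := F) hu
  rw [c1, eq_div_iff X_pos.ne']
  rw [X]
  exact_mod_cast h

theorem cnt2' {u v : I → F} (hu : u ≠ 0) (hv : ∀ c : F, v ≠ c • u) (a b : I → F)
    (ha : a ⬝ᵥ u = 0) (hb : b ⬝ᵥ v = 0) (hab : a ⬝ᵥ v + b ⬝ᵥ u = 0) :
    ((univ.filter fun w : altS F I => (w : Matrix I I F) *ᵥ u = a ∧ (w : Matrix I I F) *ᵥ v = b).card : ℚ) =
      c2 F I := by
  have h := cnt2 hu hv a b ha hb hab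
  rw [c2, eq_div_iff (pow_pos X_pos 2).ne', X, ← pow_mul, mul_comm (Fintype.card I)]
  exact_mod_cast h

theorem inner (D : altS F I) {u : I → F} (hu : u ≠ 0) :
    ∑ v ∈ univ.filter (fun v : I → F => v ≠ 0), ((univ.filter fun w : altS F I =>
      (w : Matrix I I F) *ᵥ u = 0 ∧ ((w + D : altS F I) : Matrix I I F) *ᵥ v = 0).card : ℚ) =
    if (D : Matrix I I F) *ᵥ u = 0 then ((Fintype.card F : ℚ) - 1) * c1 F I + (X F I - Fintype.card F) * c2 F I
      else (X F I / Fintype.card F - Fintype.card F) * c2 F I := by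
  classical
  set L := univ.filter (fun v : I → F => ∃ c : F, v = c • u) with hL
  have h0L : (0 : I → F) ∈ L := by
    rw [hL, mem_filter]
    exact ⟨mem_univ _, 0, by rw [zero_smul]⟩
  have hsplit : univ.filter (fun v : I → F => v ≠ 0) = L.erase 0 ∪ (univ.filter fun v => v ∉ L) := by
    ext v
    simp only [mem_filter, mem_univ, true_and, mem_union, mem_erase]
    constructor
    · intro h
      by_cases h1 : v ∈ L
      · exact Or.inl ⟨h, h1⟩
      · exact Or.inr h1
    · rintro (h | h)
      · exact h.1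
      · rintro rfl
        exact h h0L
  have hdisj : Disjoint (L.erase 0) (univ.filter fun v => v ∉ L) := by
    rw [Finset.disjoint_left]
    intro v hv hv'
    exact (mem_filter.1 hv').2 (mem_of_mem_erase hv)
  rw [hsplit, Finset.sum_union hdisj]
  -- multiples of `u`
  have hA : ∀ v ∈ L.erase 0, ((univ.filter fun w : altS F I =>
      (w : Matrix I I F) *ᵥ u = 0 ∧ ((w + D : altS F I) : Matrix I I F) *ᵥ v = 0).card : ℚ) =
      if (D : Matrix I I F) *ᵥ u = 0 then c1 F I else 0 := by
    intro v hv
    obtain ⟨hv0, hvL⟩ := mem_erase.1 hv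
    obtain ⟨-, c, rfl⟩ := mem_filter.1 hvL
    have hc : c ≠ 0 := by
      rintro rfl
      exact hv0 (zero_smul _ _)
    split_ifs with hD
    · rw [← cnt1' hu]
      congr 2
      ext w
      simp only [mem_filter, mem_univ, true_and]
      constructor
      · exact fun h => h.1
      · intro h
        refine ⟨h, ?_⟩
        rw [Submodule.coe_add, mulVec_smul, add_mulVec, h, hD, add_zero, smul_zero]
    · rw [Nat.cast_eq_zero, Finset.card_eq_zero, Finset.filter_eq_empty_iff]
      rintro w - ⟨h1, h2⟩
      rw [Submodule.coe_add, mulVec_smul, add_mulVec, h1, zero_add] at h2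
      exact hD ((smul_eq_zero.1 h2).resolve_left hc)
  -- other vectors
  have hB : ∀ v ∈ univ.filter (fun v => v ∉ L), ((univ.filter fun w : altS F I =>
      (w : Matrix I I F) *ᵥ u = 0 ∧ ((w + D : altS F I) : Matrix I I F) *ᵥ v = 0).card : ℚ) =
      if v ⬝ᵥ ((D : Matrix I I F) *ᵥ u) = 0 then c2 F I else 0 := by
    intro v hv
    have hv1 : ∀ c : F, v ≠ c • u := fun c h => (mem_filter.1 hv).2 (mem_filter.2 ⟨mem_univ _, c, h⟩)
    have e1 : (univ.filter fun w : altS F I =>
      (w : Matrix I I F) *ᵥ u = 0 ∧ ((w + D : altS F I) : Matrix I I F) *ᵥ v = 0) =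
      univ.filter fun w : altS F I => (w : Matrix I I F) *ᵥ u = 0 ∧ (w : Matrix I I F) *ᵥ v =
        - ((D : Matrix I I F) *ᵥ v) := by
      ext w
      simp only [mem_filter, mem_univ, true_and, Submodule.coe_add, add_mulVec]
      refine and_congr_right fun _ => ?_
      exact add_eq_zero_iff_eq_neg
    rw [e1]
    split_ifs with hD
    · refine cnt2' hu hv1 _ _ (zero_dotProduct _) ?_ ?_
      · rw [neg_dotProduct, dotProduct_comm, alt_dot_self D.2, neg_zero]
      · rw [zero_dotProduct, zero_add, neg_dotProduct, dotProduct_comm, alt_dot D.2, hD, neg_zero, neg_zero]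
    · rw [Nat.cast_eq_zero, Finset.card_eq_zero, Finset.filter_eq_empty_iff]
      rintro w - ⟨h1, h2⟩
      apply hD
      have h3 := alt_dot w.2 v u
      rw [h1, dotProduct_zero, h2, dotProduct_neg, alt_dot D.2 u v, neg_neg] at h3
      rw [← neg_eq_zero, ← h3]
  rw [Finset.sum_congr rfl hA, Finset.sum_congr rfl hB, Finset.sum_const, ← Finset.sum_filter, Finset.sum_const,
    nsmul_eq_mul, nsmul_eq_mul, Finset.card_erase_of_mem h0L, hL, line_card hu,
    Nat.cast_sub Fintype.card_pos, Nat.cast_one]
  have hC : (univ.filter fun v => v ⬝ᵥ ((D : Matrix I I F) *ᵥ u) = 0).card = (filter (fun v => v ⬝ᵥ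
      ((D : Matrix I I F) *ᵥ u) = 0) (univ.filter fun v => v ∉ univ.filter fun v : I → F => ∃ c : F, v = c • u)).card +
      Fintype.card F := by
    rw [← line_card hu, Finset.filter_comm, ← hL]
    have h1 : L = filter (fun v => v ∈ L) (univ.filter fun v => v ⬝ᵥ ((D : Matrix I I F) *ᵥ u) = 0) := by
      ext v
      simp only [mem_filter, mem_univ, true_and]
      constructor
      · intro h
        refine ⟨?_, h⟩
        obtain ⟨-, c, rfl⟩ := mem_filter.1 h
        rw [smul_dotProduct, alt_dot_self D.2, smul_zero]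
      · exact fun h => h.2
    conv_rhs => rw [add_comm]
    conv_rhs => enter [1]; rw [h1]
    exact (Finset.card_filter_add_card_filter_not _).symm
  have hC' : ((filter (fun v => v ⬝ᵥ
      ((D : Matrix I I F) *ᵥ u) = 0) (univ.filter fun v => v ∉ univ.filter fun v : I → F =>
        ∃ c : F, v = c • u)).card : ℚ) = (univ.filter fun v => v ⬝ᵥ ((D : Matrix I I F) *ᵥ u) = 0).card -
        Fintype.card F := by
    rw [hC]
    push_cast
    ring
  rw [hC']
  split_ifs with hD
  · have : (univ.filter fun v => v ⬝ᵥ ((D : Matrix I I F) *ᵥ u) = 0) = univ := by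
      rw [hD]
      ext v
      simp
    rw [this, Finset.card_univ, Fintype.card_fun, Nat.cast_pow]
    rfl
  · have h1 := hyper_card hD
    have h2 : ((univ.filter fun v => v ⬝ᵥ ((D : Matrix I I F) *ᵥ u) = 0).card : ℚ) = X F I / Fintype.card F := by
      rw [eq_div_iff q_pos.ne', X]
      exact_mod_cast h1
    rw [h2, mul_zero, zero_add]

/-- the first moment -/
theorem moment1 : ∑ w : altS F I, (kk w : ℚ) = (X F I - 1) * c1 F I := by
  classical
  have h1 : ∀ w : altS F I, (kk w : ℚ) =
      ∑ u ∈ univ.filter (fun u : I → F => u ≠ 0), if (w : Matrix I I F) *ᵥ u = 0 then (1 : ℚ) else 0 := by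
    intro w
    rw [kk, ← Finset.filter_filter, Finset.card_filter]
    push_cast
    rfl
  simp only [h1]
  rw [Finset.sum_comm, Finset.sum_congr rfl (g := fun _ => c1 F I)]
  · rw [Finset.sum_const, nsmul_eq_mul, Finset.filter_ne', Finset.card_erase_of_mem (mem_univ _),
      Finset.card_univ, Fintype.card_fun, Nat.cast_sub (Nat.one_le_pow _ _ Fintype.card_pos), Nat.cast_one,
      Nat.cast_pow]
    rfl
  · intro u hu
    rw [← cnt1' (mem_filter.1 hu).2, Finset.card_filter]
    push_cast
    rfl

/-- mixed second moments -/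
theorem moment2 (D : altS F I) (κ : ℚ)
    (hκ : κ = (univ.filter fun u : I → F => (D : Matrix I I F) *ᵥ u = 0).card) :
    ∑ w : altS F I, (kk w : ℚ) * kk (w + D) =
      (κ - 1) * (((Fintype.card F : ℚ) - 1) * c1 F I + (X F I - Fintype.card F) * c2 F I) +
        (X F I - κ) * ((X F I / Fintype.card F - Fintype.card F) * c2 F I) := by
  classical
  have h1 : ∀ w : altS F I, (kk w : ℚ) =
      ∑ u ∈ univ.filter (fun u : I → F => u ≠ 0), if (w : Matrix I I F) *ᵥ u = 0 then (1 : ℚ) else 0 := by
    intro w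
    rw [kk, ← Finset.filter_filter, Finset.card_filter]
    push_cast
    rfl
  have h2 : ∑ w : altS F I, (kk w : ℚ) * kk (w + D) =
      ∑ u ∈ univ.filter (fun u : I → F => u ≠ 0), ∑ v ∈ univ.filter (fun v : I → F => v ≠ 0),
        ((univ.filter fun w : altS F I =>
      (w : Matrix I I F) *ᵥ u = 0 ∧ ((w + D : altS F I) : Matrix I I F) *ᵥ v = 0).card : ℚ) := by
    have h3 : ∀ w : altS F I, (kk w : ℚ) * kk (w + D) =
        ∑ u ∈ univ.filter (fun u : I → F => u ≠ 0), ∑ v ∈ univ.filter (fun v : I → F => v ≠ 0),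
          if (w : Matrix I I F) *ᵥ u = 0 ∧ ((w + D : altS F I) : Matrix I I F) *ᵥ v = 0 then (1 : ℚ) else 0 := by
      intro w
      rw [h1, h1, Finset.sum_mul_sum]
      refine Finset.sum_congr rfl fun u _ => Finset.sum_congr rfl fun v _ => ?_
      rw [ite_and, ite_mul, one_mul, zero_mul]
    simp only [h3]
    rw [Finset.sum_comm]
    refine Finset.sum_congr rfl fun u _ => ?_
    rw [Finset.sum_comm]
    refine Finset.sum_congr rfl fun v _ => ?_
    rw [Finset.card_filter]
    push_cast
    rfl
  rw [h2, Finset.sum_congr rfl fun u hu => inner D (mem_filter.1 hu).2, Finset.sum_ite, Finset.sum_const,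
    Finset.sum_const, nsmul_eq_mul, nsmul_eq_mul]
  have h4 : ((filter (fun u : I → F => (D : Matrix I I F) *ᵥ u = 0) (univ.filter fun u : I → F => u ≠ 0)).card : ℚ) =
      κ - 1 := by
    rw [Finset.filter_comm, Finset.filter_ne', Finset.card_erase_of_mem, hκ, Nat.cast_sub, Nat.cast_one]
    · rw [Nat.one_le_iff_ne_zero, Finset.card_ne_zero]
      exact ⟨0, mem_filter.2 ⟨mem_univ _, mulVec_zero _⟩⟩
    · exact mem_filter.2 ⟨mem_univ _, mulVec_zero _⟩
  have h5 : ((filter (fun u : I → F => ¬ (D : Matrix I I F) *ᵥ u = 0) (univ.filter fun u : I → F => u ≠ 0)).card : ℚ) =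
      X F I - κ := by
    have e1 : filter (fun u : I → F => ¬ (D : Matrix I I F) *ᵥ u = 0) (univ.filter fun u : I → F => u ≠ 0) =
        filter (fun u : I → F => ¬ (D : Matrix I I F) *ᵥ u = 0) univ := by
      ext u
      simp only [mem_filter, mem_univ, true_and, and_iff_right_iff_imp]
      rintro h rfl
      exact h (mulVec_zero _)
    have e2 := Finset.card_filter_add_card_filter_not (s := univ) fun u : I → F => (D : Matrix I I F) *ᵥ u = 0
    rw [e1, hκ, X, eq_sub_iff_add_eq, add_comm]
    rw [Finset.card_univ, Fintype.card_fun] at e2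
    exact_mod_cast e2
  rw [h4, h5]

end Pool.Agent.V5helper95.PI
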