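import Mathlib
import Pool.Agent.V5helper95.PI.Mom

/-! The number of degenerate alternating matrices over a finite field, and of pairs of them with a given
difference. -/

set_option autoImplicit false
set_option linter.all false

open Matrix Finset

noncomputable section

namespace Pool.Agent.V5helper95.PI

open Pool.Agent.Y109.PI

variable {F : Type*} [Field F] [Fintype F] [DecidableEq F] {I : Type*} [Fintype I] [DecidableEq I]

/-- a nonzero alternating matrix has rank at least two -/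
theorem ker_card {D : altS F I} (hD : D ≠ 0) :
    ((univ.filter fun u : I → F => (D : Matrix I I F) *ᵥ u = 0).card : ℚ) * (Fintype.card F : ℚ) ^ 2 ≤ X F I := by
  classical
  have h0 : (D : Matrix I I F) ≠ 0 := fun h => hD (Subtype.ext h)
  obtain ⟨u0, hu0⟩ : ∃ u0 : I → F, (D : Matrix I I F) *ᵥ u0 ≠ 0 := by
    by_contra h
    push Not at h
    apply h0
    ext i j
    have := congrFun (h (Pi.single j 1)) i
    rw [mulVec_single_one] at this
    exact this
  obtain ⟨v0, hv0⟩ := exists_dual hu0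
  set a := (D : Matrix I I F) *ᵥ u0 with ha
  set b := (D : Matrix I I F) *ᵥ v0 with hb
  have e1 : u0 ⬝ᵥ b = -1 := by
    rw [hb, alt_dot D.2, ← ha, hv0]
  have e2 : u0 ⬝ᵥ a = 0 := alt_dot_self D.2 u0
  have e3 : v0 ⬝ᵥ b = 0 := alt_dot_self D.2 v0
  let d : (I → F) →+ F × F :=
    { toFun := fun v => (v ⬝ᵥ a, v ⬝ᵥ b)
      map_zero' := by rw [zero_dotProduct, zero_dotProduct]; rfl
      map_add' := fun x y => by rw [add_dotProduct, add_dotProduct]; rfl }
  have h1 := fib d (fun x => ⟨x.1 • v0 - x.2 • u0, by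
    change ((x.1 • v0 - x.2 • u0) ⬝ᵥ a, (x.1 • v0 - x.2 • u0) ⬝ᵥ b) = x
    rw [sub_dotProduct, sub_dotProduct, smul_dotProduct, smul_dotProduct, smul_dotProduct, smul_dotProduct,
      hv0, e1, e2, e3]
    simp⟩) 0
  rw [Fintype.card_fun, Fintype.card_prod] at h1
  have h2 : (univ.filter fun u : I → F => (D : Matrix I I F) *ᵥ u = 0).card ≤
      (univ.filter fun v => d v = 0).card := by
    refine Finset.card_le_card fun u hu => ?_
    rw [mem_filter] at hu ⊢
    refine ⟨mem_univ _, ?_⟩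
    change (u ⬝ᵥ a, u ⬝ᵥ b) = 0
    rw [ha, hb, alt_dot D.2 u u0, alt_dot D.2 u v0, hu.2, dotProduct_zero, dotProduct_zero, neg_zero]
    rfl
  have h3 : (univ.filter fun u : I → F => (D : Matrix I I F) *ᵥ u = 0).card * Fintype.card F ^ 2 ≤
      Fintype.card F ^ Fintype.card I := by
    rw [← h1, sq]
    exact Nat.mul_le_mul_right _ h2
  rw [X]
  exact_mod_cast h3

/-- sums of `s` decomposable matrices have rank at most `2 s` -/
theorem rank_sum_wdg {s : ℕ} (e f : Fin s → I → F) : (∑ i, wdg (e i) (f i) : Matrix I I F).rank ≤ 2 * s := by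
  classical
  let b : Fin s ⊕ Fin s → I → F := Sum.elim e f
  have h1 : LinearMap.range (∑ i, wdg (e i) (f i) : Matrix I I F).mulVecLin ≤
      Submodule.span F (Set.range b) := by
    rintro _ ⟨x, rfl⟩
    rw [Matrix.mulVecLin_apply, Matrix.sum_mulVec]
    refine Submodule.sum_mem _ fun i _ => ?_
    rw [wdg_mulVec]
    exact Submodule.sub_mem _ (Submodule.smul_mem _ _ (Submodule.subset_span ⟨Sum.inl i, rfl⟩))
      (Submodule.smul_mem _ _ (Submodule.subset_span ⟨Sum.inr i, rfl⟩))
  have h2 := Submodule.finrank_mono h1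
  have h3 := finrank_range_le_card (R := F) b
  rw [Fintype.card_sum, Fintype.card_fin] at h3
  rw [Matrix.rank]
  exact (h2.trans h3).trans (by omega)

/-- the rank of an alternating matrix is even -/
theorem even_rank {w : Matrix I I F} (hw : Alt w) : ∃ r, w.rank = 2 * r := by
  rcases Nat.even_or_odd w.rank with ⟨r, hr⟩ | ⟨r, hr⟩
  · exact ⟨r, by omega⟩
  · exfalso
    obtain ⟨e, f, h⟩ := decomp (R := F) (K := F) (fun a b h => h) r w hw (by
      have : w.map (algebraMap F F) = w := by ext; rfl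
      rw [this]
      exact hr.le)
    have h2 := rank_sum_wdg e f
    rw [← h] at h2
    omega

/-- the number of nonzero kernel vectors of a degenerate alternating matrix -/
theorem kk_deg {g : ℕ} (hI : Fintype.card I = 2 * g) (w : altS F I) (hw : (w : Matrix I I F).det = 0) :
    ∃ j, 1 ≤ j ∧ kk w + 1 = (Fintype.card F ^ 2) ^ j := by
  classical
  obtain ⟨r, hr⟩ := even_rank w.2
  have h1 := LinearMap.finrank_range_add_finrank_ker (w : Matrix I I F).mulVecLin
  rw [Module.finrank_fintype_fun_eq_card, hI, ← Matrix.rank, hr] at h1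
  obtain ⟨v, hv0, hv⟩ := Matrix.exists_mulVec_eq_zero_iff.2 hw
  have h2 : 0 < Module.finrank F (LinearMap.ker (w : Matrix I I F).mulVecLin) := by
    rw [Module.finrank_pos_iff_exists_ne_zero]
    exact ⟨⟨v, hv⟩, fun h => hv0 (congrArg Subtype.val h)⟩
  refine ⟨g - r, by omega, ?_⟩
  have h3 : kk w + 1 = (univ.filter fun u : I → F => (w : Matrix I I F) *ᵥ u = 0).card := by
    rw [kk, ← Finset.filter_filter, Finset.filter_comm, Finset.filter_ne']
    exact Finset.card_erase_add_one (mem_filter.2 ⟨mem_univ _, mulVec_zero _⟩)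
  have h4 : (univ.filter fun u : I → F => (w : Matrix I I F) *ᵥ u = 0).card =
      Fintype.card (LinearMap.ker (w : Matrix I I F).mulVecLin) := by
    rw [Fintype.card_subtype]
    refine congrArg Finset.card (Finset.ext fun x => ?_)
    rw [mem_filter, mem_filter]
    exact Iff.rfl
  rw [h3, h4, Module.card_eq_pow_finrank (K := F), ← pow_mul]
  congr 1
  omega

theorem kk_nondeg (w : altS F I) (hw : (w : Matrix I I F).det ≠ 0) : kk w = 0 := by
  rw [kk, Finset.card_eq_zero, Finset.filter_eq_empty_iff]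
  rintro u - ⟨h1, h2⟩
  exact hw (Matrix.exists_mulVec_eq_zero_iff.1 ⟨u, h1, h2⟩)

variable (F I) in
/-- the number of degenerate alternating matrices -/
def nD : ℚ := (univ.filter fun w : altS F I => (w : Matrix I I F).det = 0).card

/-- the lower bound for the number of degenerate matrices -/
theorem deg_lower' {g : ℕ} (hg : 0 < g) (hI : Fintype.card I = 2 * g) :
    cA F I * ((X F I - 1) * (Fintype.card F * (((Fintype.card F : ℚ) ^ 4 - Fintype.card F - 1) * X F I +
      (Fintype.card F : ℚ) ^ 3))) ≤ nD F I * (((Fintype.card F : ℚ) ^ 2 - 1) ^ 2 *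
        ((Fintype.card F : ℚ) ^ 2 + 1)) * X F I ^ 2 := by
  classical
  set q : ℚ := (Fintype.card F : ℚ) with hq
  have hq2 : 2 ≤ q := q_ge
  have hM : (0 : ℚ) < cA F I := by exact_mod_cast cA_pos
  have hXp : 0 < X F I := X_pos
  -- pointwise inequality
  have h1 : ∀ w : altS F I, (q ^ 2 - 1 + (q ^ 4 - 1)) * kk w - (kk w : ℚ) * kk (w + 0) ≤
      if (w : Matrix I I F).det = 0 then (q ^ 2 - 1) * (q ^ 4 - 1) else 0 := by
    intro w
    rw [add_zero]
    split_ifs with hw
    · obtain ⟨j, hj, hk⟩ := kk_deg hI w hw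
      have hk' : (kk w : ℚ) = (q ^ 2) ^ j - 1 := by
        rw [eq_sub_iff_add_eq, hq]
        exact_mod_cast hk
      have hq4 : 0 ≤ q ^ 4 - q ^ 2 := by
        have e1 : q ^ 4 - q ^ 2 = q ^ 2 * (q ^ 2 - 1) := by ring
        rw [e1]
        exact mul_nonneg (by positivity) (by nlinarith)
      have h2 : 0 ≤ ((kk w : ℚ) - (q ^ 2 - 1)) * (kk w - (q ^ 4 - 1)) := by
        rcases Nat.lt_or_ge 1 j with h | h
        · have h3 : (q ^ 2) ^ 2 ≤ (q ^ 2) ^ j := pow_le_pow_right₀ (by nlinarith) h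
          have h4 : (q ^ 2) ^ 2 = q ^ 4 := by ring
          rw [h4] at h3
          refine mul_nonneg ?_ ?_ <;> rw [hk'] <;> linarith
        · have : j = 1 := by omega
          rw [hk', this]
          simp
      nlinarith
    · rw [kk_nondeg w hw]
      simp
  have h2 := Finset.sum_le_sum fun w (_ : w ∈ (univ : Finset (altS F I))) => h1 w
  rw [Finset.sum_sub_distrib, ← Finset.mul_sum, moment1, moment2 0 (X F I) (by
    rw [X, Submodule.coe_zero]
    simp), ← Finset.sum_filter, Finset.sum_const, nsmul_eq_mul, sub_self, zero_mul, add_zero] at h2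
  change _ ≤ nD F I * _ at h2
  rw [← hq] at h2
  have h3 : ((q ^ 2 - 1 + (q ^ 4 - 1)) * ((X F I - 1) * c1 F I) -
      (X F I - 1) * ((q - 1) * c1 F I + (X F I - q) * c2 F I)) * X F I ^ 2 =
      cA F I * ((X F I - 1) * (q * ((q ^ 4 - q - 1) * X F I + q ^ 3))) := by
    rw [c1, c2, ← hq]
    field_simp
    ring
  have h4 := mul_le_mul_of_nonneg_right h2 (sq_nonneg (X F I))
  rw [h3] at h4
  refine h4.trans (le_of_eq ?_)
  ring

/-- **The proportion of degenerate alternating matrices is at least `1 / q`.** -/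
theorem deg_lower {g : ℕ} (hg : 0 < g) (hI : Fintype.card I = 2 * g) :
    (cA F I : ℚ) ≤ Fintype.card F * nD F I := by
  classical
  have h0 := deg_lower' (F := F) hg hI
  set q : ℚ := (Fintype.card F : ℚ) with hq
  have hq2 : 2 ≤ q := q_ge
  have hM : (0 : ℚ) < cA F I := by exact_mod_cast cA_pos
  have hX : q ^ 2 ≤ X F I := by
    rw [X, ← hq]
    exact pow_le_pow_right₀ (by linarith) (by omega)
  have hXp : 0 < X F I := X_pos
  have h4 : 0 ≤ cA F I * ((X F I - q ^ 2) * ((q ^ 4 - q ^ 3 - 1) * X F I + q ^ 3)) := by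
    have h5 : 0 ≤ q ^ 4 - q ^ 3 - 1 := by
      have : q ^ 4 - q ^ 3 = q ^ 3 * (q - 1) := by ring
      have h6 : 8 ≤ q ^ 3 := by
        calc (8 : ℚ) = 2 ^ 3 := by norm_num
          _ ≤ q ^ 3 := pow_le_pow_left₀ (by norm_num) hq2 3
      nlinarith
    have h6 : 0 ≤ X F I - q ^ 2 := by linarith
    positivity
  have h5 : 0 < ((q ^ 2 - 1) ^ 2 * (q ^ 2 + 1)) * X F I ^ 2 := by
    have h6 : 0 < q ^ 2 - 1 := by nlinarith
    positivity
  have h6 : cA F I * (((q ^ 2 - 1) ^ 2 * (q ^ 2 + 1)) * X F I ^ 2) ≤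
      q * nD F I * (((q ^ 2 - 1) ^ 2 * (q ^ 2 + 1)) * X F I ^ 2) := by
    have h7 := mul_le_mul_of_nonneg_left h0 (by linarith : (0 : ℚ) ≤ q)
    have e1 : q * (cA F I * ((X F I - 1) * (q * ((q ^ 4 - q - 1) * X F I + q ^ 3)))) =
        cA F I * (((q ^ 2 - 1) ^ 2 * (q ^ 2 + 1)) * X F I ^ 2) +
          cA F I * ((X F I - q ^ 2) * ((q ^ 4 - q ^ 3 - 1) * X F I + q ^ 3)) := by
      ring
    rw [e1] at h7
    have e2 : q * (nD F I * ((q ^ 2 - 1) ^ 2 * (q ^ 2 + 1)) * X F I ^ 2) =
      q * nD F I * (((q ^ 2 - 1) ^ 2 * (q ^ 2 + 1)) * X F I ^ 2) := by ring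
    rw [e2] at h7
    linarith
  exact le_of_mul_le_mul_right h6 h5

variable (F I) in
/-- the bound for pairs of degenerate matrices with a given difference -/
def eP : ℚ := cA F I * ((X F I - (Fintype.card F : ℚ) ^ 2) * ((((Fintype.card F : ℚ) ^ 3 + (Fintype.card F : ℚ) ^ 2 - 1) *
  X F I - (Fintype.card F : ℚ) ^ 3))) / (Fintype.card F * X F I ^ 2 * ((Fintype.card F : ℚ) ^ 2 - 1) ^ 2)

/-- **Pairs of degenerate alternating matrices with a given difference.** -/
theorem pair_upper {g : ℕ} (hI : Fintype.card I = 2 * g) {D : altS F I} (hD : D ≠ 0) :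
    ((univ.filter fun w : altS F I => (w : Matrix I I F).det = 0 ∧
      ((w + D : altS F I) : Matrix I I F).det = 0).card : ℚ) ≤ eP F I := by
  classical
  set q : ℚ := (Fintype.card F : ℚ) with hq
  have hq2 : 2 ≤ q := q_ge
  have hM : (0 : ℚ) < cA F I := by exact_mod_cast cA_pos
  have hXp : 0 < X F I := X_pos
  set κ : ℚ := ((univ.filter fun u : I → F => (D : Matrix I I F) *ᵥ u = 0).card : ℚ) with hκ
  have hκ1 : κ * q ^ 2 ≤ X F I := ker_card hD
  have h1 : ∀ w : altS F I, (if (w : Matrix I I F).det = 0 ∧ ((w + D : altS F I) : Matrix I I F).det = 0 then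
      (q ^ 2 - 1) ^ 2 else 0) ≤ (kk w : ℚ) * kk (w + D) := by
    have key : ∀ w : altS F I, (w : Matrix I I F).det = 0 → q ^ 2 - 1 ≤ kk w := by
      intro w hw
      obtain ⟨j, hj, hk⟩ := kk_deg hI w hw
      have hk' : (kk w : ℚ) = (q ^ 2) ^ j - 1 := by
        rw [eq_sub_iff_add_eq, hq]
        exact_mod_cast hk
      rw [hk']
      have h3 : (q ^ 2) ^ 1 ≤ (q ^ 2) ^ j := pow_le_pow_right₀ (by nlinarith) hj
      linarith
    intro w
    split_ifs with hw
    · rw [sq]
      exact mul_le_mul (key w hw.1) (key _ hw.2) (by nlinarith) (Nat.cast_nonneg _)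
    · positivity
  have h2 := Finset.sum_le_sum fun w (_ : w ∈ (univ : Finset (altS F I))) => h1 w
  rw [← Finset.sum_filter, Finset.sum_const, nsmul_eq_mul, moment2 D κ hκ, ← hq] at h2
  have h3 : (κ - 1) * ((q - 1) * c1 F I + (X F I - q) * c2 F I) + (X F I - κ) * ((X F I / q - q) * c2 F I) ≤
      eP F I * (q ^ 2 - 1) ^ 2 := by
    have e1 : eP F I * (q ^ 2 - 1) ^ 2 - ((κ - 1) * ((q - 1) * c1 F I + (X F I - q) * c2 F I) +
        (X F I - κ) * ((X F I / q - q) * c2 F I)) =
        (X F I - κ * q ^ 2) * ((q ^ 2 - 1) * cA F I / (q * X F I)) := by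
      have h9 : q ^ 2 - 1 ≠ 0 := by nlinarith
      rw [eP, c1, c2, ← hq]
      field_simp
      ring
    have e2 : 0 ≤ (X F I - κ * q ^ 2) * ((q ^ 2 - 1) * cA F I / (q * X F I)) := by
      have h5 : 0 ≤ X F I - κ * q ^ 2 := by linarith
      have h6 : 0 ≤ q ^ 2 - 1 := by nlinarith
      positivity
    linarith
  have h4 : 0 < (q ^ 2 - 1) ^ 2 := by
    have : 0 < q ^ 2 - 1 := by nlinarith
    positivity
  exact le_of_mul_le_mul_right (h2.trans h3) h4

end Pool.Agent.V5helper95.PI
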