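import Mathlib
import Pool.Agent.V5helper95.PI.Deg

/-! Degenerate translates of alternating matrices over a finite field: at least half of the matrices have a
degenerate translate by a multiple of a given matrix, and almost all have a degenerate translate by a combination
of two given matrices. -/

set_option autoImplicit false
set_option linter.all false

open Matrix Finset

noncomputable section

namespace Pool.Agent.V5helper95.PI

open Pool.Agent.Y109.PI

variable {F : Type*} [Field F] [Fintype F] [DecidableEq F] {I : Type*} [Fintype I] [DecidableEq I]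

/-- a degenerate matrix -/
def IsDeg (w : altS F I) : Prop := (w : Matrix I I F).det = 0

instance : DecidablePred (IsDeg (F := F) (I := I)) := fun w => inferInstanceAs (Decidable (_ = _))

theorem nD_eq : nD F I = ∑ w : altS F I, if IsDeg w then (1 : ℚ) else 0 := by
  rw [nD, Finset.card_filter]
  push_cast
  rfl

section

variable {T : Type*} [Fintype T] [DecidableEq T] (Pr : altS F I → Prop) [DecidablePred Pr] (τ : T → altS F I)

/-- the number of translates with the property -/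
def nT (w : altS F I) : ℕ := (univ.filter fun t => Pr (w + τ t)).card

/-- the number of matrices with the property -/
def nP : ℚ := (univ.filter fun w : altS F I => Pr w).card

theorem nP_eq : nP Pr = ∑ w : altS F I, if Pr w then (1 : ℚ) else 0 := by
  rw [nP, Finset.card_filter]
  push_cast
  rfl

theorem nT_cast (w : altS F I) : (nT Pr τ w : ℚ) = ∑ t, if Pr (w + τ t) then (1 : ℚ) else 0 := by
  rw [nT, Finset.card_filter]
  push_cast
  rfl

theorem sum_nT : ∑ w : altS F I, (nT Pr τ w : ℚ) = Fintype.card T * nP Pr := by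
  simp only [nT_cast]
  rw [Finset.sum_comm, Finset.sum_congr rfl (g := fun _ => nP Pr)]
  · rw [Finset.sum_const, nsmul_eq_mul, Finset.card_univ]
  · intro t _
    rw [nP_eq]
    exact Equiv.sum_comp (Equiv.addRight (τ t)) fun w => if Pr w then (1 : ℚ) else 0

theorem sum_nT_sq (hτ : Function.Injective τ) (P : ℚ)
    (hP : ∀ D : altS F I, D ≠ 0 → ((univ.filter fun w : altS F I => Pr w ∧ Pr (w + D)).card : ℚ) ≤ P) :
    ∑ w : altS F I, (nT Pr τ w : ℚ) ^ 2 ≤ Fintype.card T * nP Pr + Fintype.card T * (Fintype.card T - 1) * P := by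
  classical
  have h1 : ∑ w : altS F I, (nT Pr τ w : ℚ) ^ 2 = ∑ t, ∑ t', ∑ w : altS F I,
      if Pr (w + τ t) ∧ Pr (w + τ t') then (1 : ℚ) else 0 := by
    have h2 : ∀ w : altS F I, (nT Pr τ w : ℚ) ^ 2 = ∑ t, ∑ t',
        if Pr (w + τ t) ∧ Pr (w + τ t') then (1 : ℚ) else 0 := by
      intro w
      rw [sq, nT_cast, Finset.sum_mul_sum]
      refine Finset.sum_congr rfl fun t _ => Finset.sum_congr rfl fun t' _ => ?_
      rw [ite_and, ite_mul, one_mul, zero_mul]
    simp only [h2]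
    rw [Finset.sum_comm]
    refine Finset.sum_congr rfl fun t _ => ?_
    rw [Finset.sum_comm]
  rw [h1]
  have h3 : ∀ t, (∑ t', ∑ w : altS F I, if Pr (w + τ t) ∧ Pr (w + τ t') then (1 : ℚ) else 0) ≤
      nP Pr + (Fintype.card T - 1) * P := by
    intro t
    rw [← Finset.add_sum_erase _ _ (mem_univ t)]
    refine add_le_add ?_ ?_
    · simp only [and_self]
      rw [nP_eq]
      exact le_of_eq (Equiv.sum_comp (Equiv.addRight (τ t)) fun w => if Pr w then (1 : ℚ) else 0)
    · have h4 : ∀ t' ∈ univ.erase t, (∑ w : altS F I, if Pr (w + τ t) ∧ Pr (w + τ t') then (1 : ℚ) else 0) ≤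
          P := by
        intro t' ht'
        have h5 : τ t' - τ t ≠ 0 := fun h => (ne_of_mem_erase ht') (hτ (sub_eq_zero.1 h))
        refine le_trans (le_of_eq ?_) (hP _ h5)
        rw [Finset.card_filter]
        push_cast
        rw [← Equiv.sum_comp (Equiv.addRight (τ t)) fun w => if Pr w ∧ Pr (w + (τ t' - τ t)) then (1 : ℚ) else 0]
        refine Finset.sum_congr rfl fun w _ => ?_
        have : w + τ t + (τ t' - τ t) = w + τ t' := by abel
        rw [Equiv.coe_addRight, this]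
      refine (Finset.sum_le_card_nsmul _ _ _ h4).trans (le_of_eq ?_)
      rw [nsmul_eq_mul, Finset.card_erase_of_mem (mem_univ _), Finset.card_univ,
        Nat.cast_sub (Fintype.card_pos_iff.2 ⟨t⟩), Nat.cast_one]
  refine (Finset.sum_le_sum fun t _ => h3 t).trans (le_of_eq ?_)
  rw [Finset.sum_const, nsmul_eq_mul, Finset.card_univ]
  ring

theorem translates (hτ : Function.Injective τ) (P : ℚ)
    (hP : ∀ D : altS F I, D ≠ 0 → ((univ.filter fun w : altS F I => Pr w ∧ Pr (w + D)).card : ℚ) ≤ P) :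
    2 * (Fintype.card T * nP Pr) - Fintype.card T * (Fintype.card T - 1) * P ≤
        2 * ((univ.filter fun w : altS F I => ∃ t, Pr (w + τ t)).card : ℚ) ∧
      (Fintype.card T * nP Pr) ^ 2 ≤ ((univ.filter fun w : altS F I => ∃ t, Pr (w + τ t)).card : ℚ) *
        (Fintype.card T * nP Pr + Fintype.card T * (Fintype.card T - 1) * P) := by
  classical
  have hs1 := sum_nT Pr τ
  have hs2 := sum_nT_sq Pr τ hτ P hP
  have hn : ∀ w : altS F I, (∃ t, Pr (w + τ t)) ↔ nT Pr τ w ≠ 0 := by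
    intro w
    rw [nT, Finset.card_ne_zero]
    constructor
    · rintro ⟨t, ht⟩
      exact ⟨t, mem_filter.2 ⟨mem_univ _, ht⟩⟩
    · rintro ⟨t, ht⟩
      exact ⟨t, (mem_filter.1 ht).2⟩
  have hc : ((univ.filter fun w : altS F I => ∃ t, Pr (w + τ t)).card : ℚ) =
      ∑ w : altS F I, if nT Pr τ w ≠ 0 then (1 : ℚ) else 0 := by
    rw [Finset.card_filter]
    push_cast
    refine Finset.sum_congr rfl fun w _ => ?_
    simp only [hn w]
  refine ⟨?_, ?_⟩
  · have h1 : ∀ w : altS F I, 3 * (nT Pr τ w : ℚ) - (nT Pr τ w : ℚ) ^ 2 ≤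
        2 * if nT Pr τ w ≠ 0 then (1 : ℚ) else 0 := by
      intro w
      generalize nT Pr τ w = m
      rcases m with _ | _ | _ | m
      · norm_num
      · norm_num
      · norm_num
      · simp only [ne_eq, Nat.add_eq_zero_iff, OfNat.ofNat_ne_zero, one_ne_zero, and_false, and_self, not_false_eq_true,
          if_true]
        push_cast
        nlinarith [(Nat.cast_nonneg m : (0 : ℚ) ≤ m)]
    have h2 := Finset.sum_le_sum fun w (_ : w ∈ (univ : Finset (altS F I))) => h1 w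
    rw [Finset.sum_sub_distrib, ← Finset.mul_sum, ← Finset.mul_sum, ← hc, hs1] at h2
    linarith
  · have h1 : ∑ w : altS F I, (nT Pr τ w : ℚ) = ∑ w : altS F I, (if nT Pr τ w ≠ 0 then (1 : ℚ) else 0) *
        nT Pr τ w := by
      refine Finset.sum_congr rfl fun w _ => ?_
      split_ifs with h
      · rw [one_mul]
      · rw [not_not.1 h]
        simp
    have h2 := Finset.sum_mul_sq_le_sq_mul_sq (univ : Finset (altS F I))
      (fun w => if nT Pr τ w ≠ 0 then (1 : ℚ) else 0) (fun w => (nT Pr τ w : ℚ))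
    rw [← h1, hs1] at h2
    have h3 : ∑ w : altS F I, (if nT Pr τ w ≠ 0 then (1 : ℚ) else 0) ^ 2 =
        ((univ.filter fun w : altS F I => ∃ t, Pr (w + τ t)).card : ℚ) := by
      rw [hc]
      refine Finset.sum_congr rfl fun w _ => ?_
      split_ifs <;> norm_num
    rw [h3] at h2
    exact h2.trans (mul_le_mul_of_nonneg_left hs2 (Nat.cast_nonneg _))

end

theorem nP_IsDeg : nP (IsDeg (F := F) (I := I)) = nD F I := rfl

/-- **At least half** of the alternating matrices have a degenerate translate by a multiple of `D`. -/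
theorem half {g : ℕ} (hg : 0 < g) (hI : Fintype.card I = 2 * g) {D : altS F I} (hD : D ≠ 0) :
    cA F I ≤ 2 * (univ.filter fun w : altS F I => ∃ t : F, IsDeg (w + t • D)).card := by
  classical
  have h1 := (translates IsDeg (fun t : F => t • D) (smul_left_injective F hD) (eP F I)
    fun D' hD' => pair_upper hI hD').1
  rw [nP_IsDeg] at h1
  have hdl := deg_lower' (F := F) hg hI
  set n1 : ℚ := ((univ.filter fun w : altS F I => ∃ t : F, IsDeg (w + t • D)).card : ℚ) with hn1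
  set q : ℚ := (Fintype.card F : ℚ) with hq
  have hq2 : 2 ≤ q := q_ge
  have hM : (0 : ℚ) < cA F I := by exact_mod_cast cA_pos
  have hX : q ^ 2 ≤ X F I := by
    rw [X, ← hq]
    exact pow_le_pow_right₀ (by linarith) (by omega)
  have hXp : 0 < X F I := X_pos
  suffices h : (cA F I : ℚ) ≤ 2 * n1 by
    rw [hn1] at h
    exact_mod_cast h
  refine le_trans ?_ h1
  have hk : 0 < q ^ 2 - 1 := by nlinarith
  have hZ : 0 < (q ^ 2 - 1) ^ 2 * (q ^ 2 + 1) * X F I ^ 2 := by positivity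
  refine le_of_mul_le_mul_right ?_ hZ
  have e1 : q * (q - 1) * eP F I * ((q ^ 2 - 1) ^ 2 * (q ^ 2 + 1) * X F I ^ 2) =
      cA F I * ((q ^ 2 + 1) * (q - 1) * (X F I - q ^ 2) * ((q ^ 3 + q ^ 2 - 1) * X F I - q ^ 3)) := by
    rw [eP, ← hq]
    field_simp
  obtain ⟨s, hs⟩ : ∃ s, q = s + 2 := ⟨q - 2, by ring⟩
  obtain ⟨Y, hY⟩ : ∃ Y, X F I = q ^ 2 + Y := ⟨X F I - q ^ 2, by ring⟩
  have hs0 : 0 ≤ s := by linarith
  have hY0 : 0 ≤ Y := by linarith
  have h2 : 0 ≤ 2 * q ^ 2 * (X F I - 1) * ((q ^ 4 - q - 1) * X F I + q ^ 3) -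
      (q ^ 2 + 1) * (q - 1) * (X F I - q ^ 2) * ((q ^ 3 + q ^ 2 - 1) * X F I - q ^ 3) -
      (q ^ 2 + 1) * (q ^ 2 - 1) ^ 2 * X F I ^ 2 := by
    rw [hY, hs]
    ring_nf
    positivity
  have h3 := mul_le_mul_of_nonneg_left hdl (by linarith : (0 : ℚ) ≤ 2 * q)
  have h4 := mul_nonneg hM.le h2
  rw [sub_mul, e1]
  linarith

theorem eP_bound {g : ℕ} (hg : 0 < g) (hI : Fintype.card I = 2 * g) :
    eP F I * (Fintype.card F * ((Fintype.card F : ℚ) ^ 2 - 1) ^ 2) ≤
      cA F I * ((Fintype.card F : ℚ) ^ 3 + (Fintype.card F : ℚ) ^ 2 - 1) := by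
  set q : ℚ := (Fintype.card F : ℚ) with hq
  have hq2 : 2 ≤ q := q_ge
  have hM : (0 : ℚ) < cA F I := by exact_mod_cast cA_pos
  have hX : q ^ 2 ≤ X F I := by
    rw [X, ← hq]
    exact pow_le_pow_right₀ (by linarith) (by omega)
  have hXp : 0 < X F I := X_pos
  have hk : 0 < q ^ 2 - 1 := by nlinarith
  have e1 : cA F I * (q ^ 3 + q ^ 2 - 1) - eP F I * (q * (q ^ 2 - 1) ^ 2) =
      cA F I * (((q ^ 3 + q ^ 2 - 1) * q ^ 2 + q ^ 3) * X F I - q ^ 5) / X F I ^ 2 := by
    rw [eP, ← hq]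
    field_simp
    ring
  have e2 : 0 ≤ cA F I * (((q ^ 3 + q ^ 2 - 1) * q ^ 2 + q ^ 3) * X F I - q ^ 5) / X F I ^ 2 := by
    have e3 : 0 ≤ ((q ^ 3 + q ^ 2 - 1) * q ^ 2 + q ^ 3) * X F I - q ^ 5 := by
      have e4 : q ^ 5 ≤ ((q ^ 3 + q ^ 2 - 1) * q ^ 2 + q ^ 3) * q ^ 2 := by
        obtain ⟨s, hs⟩ : ∃ s, q = s + 2 := ⟨q - 2, by ring⟩
        have hs0 : 0 ≤ s := by linarith
        rw [← sub_nonneg, hs]
        ring_nf
        positivity
      have e5 : 0 ≤ (q ^ 3 + q ^ 2 - 1) * q ^ 2 + q ^ 3 := by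
        have : 0 ≤ q ^ 2 - 1 := hk.le
        have e6 : (q ^ 3 + q ^ 2 - 1) * q ^ 2 + q ^ 3 = (q ^ 3 + (q ^ 2 - 1)) * q ^ 2 + q ^ 3 := by ring
        rw [e6]
        positivity
      nlinarith [mul_le_mul_of_nonneg_left hX e5]
    positivity
  linarith


/-- **Almost all** alternating matrices have a degenerate translate by a combination of two given matrices. -/
theorem most {g : ℕ} (hg : 0 < g) (hI : Fintype.card I = 2 * g) {D D' : altS F I}
    (hD : LinearIndependent F ![D, D']) :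
    (Fintype.card F - 1) * cA F I ≤
      (Fintype.card F + 1) * (univ.filter fun w : altS F I => ∃ t : F × F, IsDeg (w + (t.1 • D + t.2 • D'))).card := by
  classical
  have hinj : Function.Injective fun t : F × F => t.1 • D + t.2 • D' := by
    intro a b hab
    simp only at hab
    have h0 : (a.1 - b.1) • D + (a.2 - b.2) • D' = 0 := by
      refine Subtype.ext ?_
      ext i j
      have h1 := congrFun (congrFun (congrArg Subtype.val hab) i) j
      simp only [Submodule.coe_add, Submodule.coe_smul, Matrix.add_apply, Matrix.smul_apply, smul_eq_mul,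
        Submodule.coe_zero, Matrix.zero_apply] at h1 ⊢
      linear_combination h1
    obtain ⟨h1, h2⟩ := LinearIndependent.pair_iff.1 hD _ _ h0
    exact Prod.ext (sub_eq_zero.1 h1) (sub_eq_zero.1 h2)
  have h1 := (translates IsDeg (fun t : F × F => t.1 • D + t.2 • D') hinj (eP F I)
    fun D' hD' => pair_upper hI hD').2
  rw [nP_IsDeg] at h1
  have hdl := deg_lower (F := F) hg hI
  set n1 : ℚ := ((univ.filter fun w : altS F I => ∃ t : F × F, IsDeg (w + (t.1 • D + t.2 • D'))).card : ℚ) with hn1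
  set q : ℚ := (Fintype.card F : ℚ) with hq
  have hq2 : 2 ≤ q := q_ge
  have hM : (0 : ℚ) < cA F I := by exact_mod_cast cA_pos
  have hX : q ^ 2 ≤ X F I := by
    rw [X, ← hq]
    exact pow_le_pow_right₀ (by linarith) (by omega)
  have hXp : 0 < X F I := X_pos
  have hcT : (Fintype.card (F × F) : ℚ) = q ^ 2 := by
    rw [Fintype.card_prod, Nat.cast_mul, sq]
  rw [hcT] at h1
  suffices h : (q - 1) * (cA F I : ℚ) ≤ (q + 1) * n1 by
    rw [hn1, hq] at h
    have h9 : ((Fintype.card F - 1 : ℕ) : ℚ) = (Fintype.card F : ℚ) - 1 := by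
      rw [Nat.cast_sub Fintype.card_pos, Nat.cast_one]
    rw [← h9] at h
    exact_mod_cast h
  have hk : 0 < q ^ 2 - 1 := by nlinarith
  -- the bound for pairs
  have he : eP F I * (q * (q ^ 2 - 1) ^ 2) ≤ cA F I * (q ^ 3 + q ^ 2 - 1) := eP_bound hg hI
  have heP : 0 ≤ eP F I := by
    have h2 := pair_upper (F := F) hI (D := D) (fun h => by
      have := hD.ne_zero 0
      exact this h)
    exact le_trans (Nat.cast_nonneg _) h2
  have hn0 : 0 ≤ n1 := Nat.cast_nonneg _
  -- Cauchy-Schwarz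
  by_contra hcon
  push Not at hcon
  have hnD : 0 < nD F I := by
    have : 0 < q * nD F I := lt_of_lt_of_le hM hdl
    exact (mul_pos_iff_of_pos_left (by linarith : (0 : ℚ) < q)).1 this
  set d := nD F I with hd
  set e := eP F I with hee
  set M : ℚ := (cA F I : ℚ) with hMM
  -- `(q^2 d)^2 (q+1) < (q-1) M (q^2 d + q^2 (q^2-1) e)`
  have h2 : (q + 1) * (q ^ 2 * d) ^ 2 < (q - 1) * M * (q ^ 2 * d + q ^ 2 * (q ^ 2 - 1) * e) := by
    have h3 : 0 < q ^ 2 * d + q ^ 2 * (q ^ 2 - 1) * e := by positivity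
    calc (q + 1) * (q ^ 2 * d) ^ 2 ≤ (q + 1) * (n1 * (q ^ 2 * d + q ^ 2 * (q ^ 2 - 1) * e)) :=
          mul_le_mul_of_nonneg_left h1 (by linarith)
      _ = ((q + 1) * n1) * (q ^ 2 * d + q ^ 2 * (q ^ 2 - 1) * e) := by ring
      _ < _ := mul_lt_mul_of_pos_right hcon h3
  have h4 : M * (q ^ 2 * (q ^ 2 - 1) * e) * ((q ^ 2 - 1)) ≤ q * M ^ 2 * (q ^ 3 + q ^ 2 - 1) := by
    nlinarith [mul_le_mul_of_nonneg_left he (by positivity : 0 ≤ M * q)]
  have h5 : M ^ 2 ≤ (q * d) ^ 2 := pow_le_pow_left₀ hM.le hdl 2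
  have h6 : M * (q ^ 2 * d) ≤ q * (q * d) ^ 2 := by
    nlinarith [mul_le_mul_of_nonneg_right hdl (by positivity : 0 ≤ q ^ 2 * d)]
  have h7 : (q - 1) * M * (q ^ 2 * d + q ^ 2 * (q ^ 2 - 1) * e) * (q ^ 2 - 1) ≤
      (q - 1) * (q * (q * d) ^ 2 * (q ^ 2 - 1) + q * (q * d) ^ 2 * (q ^ 3 + q ^ 2 - 1)) := by
    have a1 : M * (q ^ 2 * d) * (q ^ 2 - 1) ≤ q * (q * d) ^ 2 * (q ^ 2 - 1) :=
      mul_le_mul_of_nonneg_right h6 hk.le
    have a3 : 0 ≤ q * (q ^ 3 + q ^ 2 - 1) := by
      have e6 : q * (q ^ 3 + q ^ 2 - 1) = q * (q ^ 3 + (q ^ 2 - 1)) := by ring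
      rw [e6]
      have := hk.le
      positivity
    have a2 : q * M ^ 2 * (q ^ 3 + q ^ 2 - 1) ≤ q * (q * d) ^ 2 * (q ^ 3 + q ^ 2 - 1) := by
      nlinarith [mul_le_mul_of_nonneg_left h5 a3]
    have a4 := mul_le_mul_of_nonneg_left (add_le_add a1 (h4.trans a2)) (by linarith : 0 ≤ q - 1)
    refine le_trans (le_of_eq ?_) a4
    ring
  have h8 := mul_lt_mul_of_pos_right h2 hk
  have h9 := lt_of_lt_of_le h8 h7
  have h10 : (q + 1) * (q ^ 2 * d) ^ 2 * (q ^ 2 - 1) -
      (q - 1) * (q * (q * d) ^ 2 * (q ^ 2 - 1) + q * (q * d) ^ 2 * (q ^ 3 + q ^ 2 - 1)) =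
      d ^ 2 * q ^ 3 * (q - 1) * (q + 2) := by ring
  have h11 : 0 ≤ d ^ 2 * q ^ 3 * (q - 1) * (q + 2) := by
    have : 0 ≤ q - 1 := by linarith
    positivity
  linarith

end Pool.Agent.V5helper95.PI
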