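import Mathlib
import Pool.Agent.V5helper95.PI.Half
import Pool.Agent.V5helper95.PI.Hens

/-! The number of alternating matrices over a finite field with a two-dimensional kernel on which a given alternating
matrix `D` is nonzero. -/

set_option autoImplicit false
set_option linter.all false

open Matrix Finset

noncomputable section

namespace Pool.Agent.V5helper95.PI

open Pool.Agent.Y109.PI

variable {F : Type*} [Field F] [Fintype F] [DecidableEq F] {I : Type*} [Fintype I] [DecidableEq I]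

theorem dual_pair {u v : I → F} (hu : u ≠ 0) (hv : ∀ c : F, v ≠ c • u) :
    ∃ φ ψ : I → F, φ ⬝ᵥ u = 1 ∧ φ ⬝ᵥ v = 0 ∧ ψ ⬝ᵥ u = 0 ∧ ψ ⬝ᵥ v = 1 := by
  obtain ⟨ψ, hψ1, hψ2⟩ := exists_dual2 hu hv
  have hv0 : v ≠ 0 := fun h => hv 0 (by rw [h, zero_smul])
  obtain ⟨φ, hφ2, hφ1⟩ := exists_dual2 hv0 (v := u) (fun c h => by
    have hc : c ≠ 0 := by
      rintro rfl
      rw [zero_smul] at h
      exact hu h
    exact hv c⁻¹ (by rw [h, smul_smul, inv_mul_cancel₀ hc, one_smul]))
  exact ⟨φ, ψ, hφ1, hφ2, hψ1, hψ2⟩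

theorem plane_card {u v : I → F} (hu : u ≠ 0) (hv : ∀ c : F, v ≠ c • u) :
    (univ.filter fun x : I → F => ∃ a b : F, x = a • u + b • v).card = Fintype.card F ^ 2 := by
  classical
  obtain ⟨φ, ψ, h1, h2, h3, h4⟩ := dual_pair hu hv
  have e : (univ.filter fun x : I → F => ∃ a b : F, x = a • u + b • v) =
      univ.image fun t : F × F => t.1 • u + t.2 • v := by
    ext x
    simp only [mem_filter, mem_univ, true_and, mem_image]
    exact ⟨fun ⟨a, b, h⟩ => ⟨(a, b), h.symm⟩, fun ⟨t, h⟩ => ⟨t.1, t.2, h.symm⟩⟩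
  rw [e, Finset.card_image_of_injective, Finset.card_univ, Fintype.card_prod, sq]
  intro s t hst
  simp only at hst
  have e1 := congrArg (fun x => φ ⬝ᵥ x) hst
  have e2 := congrArg (fun x => ψ ⬝ᵥ x) hst
  simp only [dotProduct_add, dotProduct_smul, h1, h2, h3, h4, smul_eq_mul, mul_one, mul_zero, add_zero,
    zero_add] at e1 e2
  exact Prod.ext e1 e2

variable (F I) in
/-- the number of alternating matrices which kill a space of dimension three -/
def c3 : ℚ := cA F I * (Fintype.card F : ℚ) ^ 6 / X F I ^ 3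

theorem cnt3 {u v x : I → F} (hu : u ≠ 0) (hv : ∀ c : F, v ≠ c • u) (hx : ∀ a b : F, x ≠ a • u + b • v) :
    ((univ.filter fun w : altS F I => (w : Matrix I I F) *ᵥ u = 0 ∧ (w : Matrix I I F) *ᵥ v = 0 ∧
      (w : Matrix I I F) *ᵥ x = 0).card : ℚ) = c3 F I := by
  classical
  obtain ⟨φ, ψ, h1, h2, h3, h4⟩ := dual_pair hu hv
  have hx' : x - (φ ⬝ᵥ x) • u - (ψ ⬝ᵥ x) • v ≠ 0 := by
    intro h
    apply hx (φ ⬝ᵥ x) (ψ ⬝ᵥ x)
    rw [sub_sub] at h
    exact sub_eq_zero.1 h
  obtain ⟨χ0, hχ0⟩ := exists_dual hx'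
  obtain ⟨χ, hχu, hχv, hχx⟩ : ∃ χ : I → F, χ ⬝ᵥ u = 0 ∧ χ ⬝ᵥ v = 0 ∧ χ ⬝ᵥ x = 1 := by
    refine ⟨χ0 - (χ0 ⬝ᵥ u) • φ - (χ0 ⬝ᵥ v) • ψ, ?_, ?_, ?_⟩
    · simp only [sub_dotProduct, smul_dotProduct, h1, h3, smul_eq_mul]
      ring
    · simp only [sub_dotProduct, smul_dotProduct, h2, h4, smul_eq_mul]
      ring
    · rw [← hχ0]
      simp only [sub_dotProduct, smul_dotProduct, dotProduct_sub, dotProduct_smul, smul_eq_mul]
      ring
  let A2 : AddSubgroup (altS F I) :=
    { carrier := {w | (w : Matrix I I F) *ᵥ u = 0 ∧ (w : Matrix I I F) *ᵥ v = 0}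
      add_mem' := fun {a b} ha hb => ⟨by rw [Submodule.coe_add, add_mulVec, ha.1, hb.1, add_zero],
        by rw [Submodule.coe_add, add_mulVec, ha.2, hb.2, add_zero]⟩
      zero_mem' := ⟨by rw [Submodule.coe_zero, zero_mulVec], by rw [Submodule.coe_zero, zero_mulVec]⟩
      neg_mem' := fun {a} ha => ⟨by rw [Submodule.coe_neg, neg_mulVec, ha.1, neg_zero],
        by rw [Submodule.coe_neg, neg_mulVec, ha.2, neg_zero]⟩ }
  let f : A2 →+ (I → F) :=
    { toFun := fun w => ((w : altS F I) : Matrix I I F) *ᵥ x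
      map_zero' := by rw [AddSubgroup.coe_zero, Submodule.coe_zero, zero_mulVec]
      map_add' := fun a b => by rw [AddSubgroup.coe_add, Submodule.coe_add, add_mulVec] }
  let d : (I → F) →+ F × F × F :=
    { toFun := fun y => (y ⬝ᵥ u, y ⬝ᵥ v, y ⬝ᵥ x)
      map_zero' := by simp only [zero_dotProduct]; rfl
      map_add' := fun a b => by simp only [add_dotProduct]; rfl }
  have hd : Function.Surjective d := by
    intro t
    refine ⟨t.1 • (φ - (φ ⬝ᵥ x) • χ) + t.2.1 • (ψ - (ψ ⬝ᵥ x) • χ) + t.2.2 • χ, ?_⟩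
    change ((t.1 • (φ - (φ ⬝ᵥ x) • χ) + t.2.1 • (ψ - (ψ ⬝ᵥ x) • χ) + t.2.2 • χ) ⬝ᵥ u,
      (t.1 • (φ - (φ ⬝ᵥ x) • χ) + t.2.1 • (ψ - (ψ ⬝ᵥ x) • χ) + t.2.2 • χ) ⬝ᵥ v,
      (t.1 • (φ - (φ ⬝ᵥ x) • χ) + t.2.1 • (ψ - (ψ ⬝ᵥ x) • χ) + t.2.2 • χ) ⬝ᵥ x) = t
    simp only [add_dotProduct, sub_dotProduct, smul_dotProduct, h1, h2, h3, h4, hχu, hχv, hχx, smul_eq_mul]
    refine Prod.ext ?_ (Prod.ext ?_ ?_)
    · simp only; ring
    · simp only; ring
    · simp only; ring
  have key := fib2 f d hd (by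
    intro y
    constructor
    · intro hy
      have e1 : y ⬝ᵥ u = 0 := congrArg Prod.fst hy
      have e2 : y ⬝ᵥ v = 0 := congrArg (fun t => t.2.1) hy
      have e3 : y ⬝ᵥ x = 0 := congrArg (fun t => t.2.2) hy
      refine ⟨⟨⟨wdg y χ, alt_wdg y χ⟩, ?_, ?_⟩, ?_⟩
      · change wdg y χ *ᵥ u = 0
        rw [wdg_mulVec, hχu, e1, zero_smul, zero_smul, sub_zero]
      · change wdg y χ *ᵥ v = 0
        rw [wdg_mulVec, hχv, e2, zero_smul, zero_smul, sub_zero]
      · change wdg y χ *ᵥ x = y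
        rw [wdg_mulVec, hχx, e3, one_smul, zero_smul, sub_zero]
    · rintro ⟨w, rfl⟩
      change ((((w : altS F I) : Matrix I I F) *ᵥ x) ⬝ᵥ u, (((w : altS F I) : Matrix I I F) *ᵥ x) ⬝ᵥ v,
        (((w : altS F I) : Matrix I I F) *ᵥ x) ⬝ᵥ x) = 0
      have hw1 : ((w : altS F I) : Matrix I I F) *ᵥ u = 0 := w.2.1
      have hw2 : ((w : altS F I) : Matrix I I F) *ᵥ v = 0 := w.2.2
      rw [dotProduct_comm _ u, dotProduct_comm _ v, dotProduct_comm _ x, alt_dot_self (w : altS F I).2 x,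
        alt_dot (w : altS F I).2 u x, alt_dot (w : altS F I).2 v x, hw1, hw2, dotProduct_zero, neg_zero]
      rfl) 0 (map_zero d)
  have hA2 : (Fintype.card A2 : ℚ) = c2 F I := by
    rw [← cnt2' hu hv 0 0 (zero_dotProduct _) (zero_dotProduct _) (by rw [zero_dotProduct, zero_dotProduct, add_zero]),
      Fintype.card_subtype]
    norm_cast
    refine congrArg Finset.card (Finset.ext fun w => ?_)
    rw [mem_filter, mem_filter]
    exact Iff.rfl
  have hfil : (univ.filter fun w : A2 => f w = 0).card = (univ.filter fun w : altS F I =>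
      (w : Matrix I I F) *ᵥ u = 0 ∧ (w : Matrix I I F) *ᵥ v = 0 ∧ (w : Matrix I I F) *ᵥ x = 0).card := by
    refine Finset.card_bij (fun w _ => (w : altS F I)) ?_ ?_ ?_
    · intro w hw
      rw [mem_filter] at hw ⊢
      exact ⟨mem_univ _, w.2.1, w.2.2, hw.2⟩
    · intro a _ b _ h
      exact Subtype.ext h
    · intro w hw
      rw [mem_filter] at hw
      exact ⟨⟨w, hw.2.1, hw.2.2.1⟩, mem_filter.2 ⟨mem_univ _, hw.2.2.2⟩, rfl⟩
  rw [hfil, Fintype.card_fun, Fintype.card_prod, Fintype.card_prod] at key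
  have key' : ((univ.filter fun w : altS F I =>
      (w : Matrix I I F) *ᵥ u = 0 ∧ (w : Matrix I I F) *ᵥ v = 0 ∧ (w : Matrix I I F) *ᵥ x = 0).card : ℚ) * X F I =
      c2 F I * (Fintype.card F : ℚ) ^ 3 := by
    rw [← hA2, X]
    have : (Fintype.card F : ℚ) ^ 3 = Fintype.card F * (Fintype.card F * Fintype.card F) := by ring
    rw [this]
    exact_mod_cast key
  have hXp : X F I ≠ 0 := X_pos.ne'
  rw [c3, eq_div_iff (pow_ne_zero 3 hXp)]
  rw [c2] at key'
  field_simp at key'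
  linear_combination key'

/-- the number of ordered pairs in the kernel of `w` on which `D` is nonzero -/
def zz (D w : altS F I) : ℕ := (univ.filter fun t : (I → F) × (I → F) =>
  t.1 ⬝ᵥ ((D : Matrix I I F) *ᵥ t.2) ≠ 0 ∧ (w : Matrix I I F) *ᵥ t.1 = 0 ∧ (w : Matrix I I F) *ᵥ t.2 = 0).card

/-- the pairs on which `D` is nonzero -/
def PD (D : altS F I) : Finset ((I → F) × (I → F)) :=
  univ.filter fun t => t.1 ⬝ᵥ ((D : Matrix I I F) *ᵥ t.2) ≠ 0

theorem PD_indep {D : altS F I} {t : (I → F) × (I → F)} (ht : t ∈ PD D) : t.1 ≠ 0 ∧ ∀ c : F, t.2 ≠ c • t.1 := by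
  have h := (mem_filter.1 ht).2
  refine ⟨fun h0 => h (by rw [h0, zero_dotProduct]), fun c hc => h ?_⟩
  rw [hc, mulVec_smul, dotProduct_smul, alt_dot_self D.2, smul_zero]

theorem PD_card (D : altS F I) (κ : ℚ)
    (hκ : κ = ((univ.filter fun u : I → F => (D : Matrix I I F) *ᵥ u = 0).card : ℚ)) :
    ((PD D).card : ℚ) = (X F I - κ) * (X F I - X F I / Fintype.card F) := by
  classical
  have h1 : (PD D).card = ∑ v : I → F, (univ.filter fun u : I → F => u ⬝ᵥ ((D : Matrix I I F) *ᵥ v) ≠ 0).card := by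
    rw [PD, Finset.card_filter, Fintype.sum_prod_type_right]
    refine Finset.sum_congr rfl fun v _ => ?_
    rw [Finset.card_filter]
  have h2 : ∀ v : I → F, ((univ.filter fun u : I → F => u ⬝ᵥ ((D : Matrix I I F) *ᵥ v) ≠ 0).card : ℚ) =
      if (D : Matrix I I F) *ᵥ v = 0 then 0 else X F I - X F I / Fintype.card F := by
    intro v
    split_ifs with hv
    · rw [hv]
      simp
    · have h3 := hyper_card hv
      have h4 := Finset.card_filter_add_card_filter_not (s := (univ : Finset (I → F)))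
        fun u => u ⬝ᵥ ((D : Matrix I I F) *ᵥ v) = 0
      rw [Finset.card_univ, Fintype.card_fun] at h4
      have h5 : ((univ.filter fun u : I → F => u ⬝ᵥ ((D : Matrix I I F) *ᵥ v) = 0).card : ℚ) =
          X F I / Fintype.card F := by
        rw [eq_div_iff q_pos.ne', X]
        exact_mod_cast h3
      rw [← h5, X, eq_sub_iff_add_eq, add_comm]
      exact_mod_cast h4
  rw [h1]
  push_cast
  rw [Finset.sum_congr rfl fun v _ => h2 v, Finset.sum_ite, Finset.sum_const_zero, zero_add, Finset.sum_const,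
    nsmul_eq_mul]
  congr 1
  have h6 := Finset.card_filter_add_card_filter_not (s := (univ : Finset (I → F)))
    fun u => (D : Matrix I I F) *ᵥ u = 0
  rw [Finset.card_univ, Fintype.card_fun] at h6
  rw [hκ, X, eq_sub_iff_add_eq, add_comm]
  exact_mod_cast h6

theorem sum_zz (D : altS F I) : ∑ w : altS F I, (zz D w : ℚ) = (PD D).card * c2 F I := by
  classical
  have h1 : ∀ w : altS F I, (zz D w : ℚ) = ∑ t ∈ PD D,
      if (w : Matrix I I F) *ᵥ t.1 = 0 ∧ (w : Matrix I I F) *ᵥ t.2 = 0 then (1 : ℚ) else 0 := by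
    intro w
    rw [zz, PD, ← Finset.filter_filter, Finset.card_filter]
    push_cast
    rfl
  simp only [h1]
  rw [Finset.sum_comm, Finset.sum_congr rfl (g := fun _ => c2 F I)]
  · rw [Finset.sum_const, nsmul_eq_mul]
  · intro t ht
    rw [← cnt2' (PD_indep ht).1 (PD_indep ht).2 0 0 (zero_dotProduct _) (zero_dotProduct _)
      (by rw [zero_dotProduct, zero_dotProduct, add_zero]), Finset.card_filter]
    push_cast
    rfl

theorem sum_kk_zz (D : altS F I) : ∑ w : altS F I, (kk w : ℚ) * zz D w =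
    (PD D).card * (((Fintype.card F : ℚ) ^ 2 - 1) * c2 F I + (X F I - (Fintype.card F : ℚ) ^ 2) * c3 F I) := by
  classical
  have h1 : ∀ w : altS F I, (zz D w : ℚ) = ∑ t ∈ PD D,
      if (w : Matrix I I F) *ᵥ t.1 = 0 ∧ (w : Matrix I I F) *ᵥ t.2 = 0 then (1 : ℚ) else 0 := by
    intro w
    rw [zz, PD, ← Finset.filter_filter, Finset.card_filter]
    push_cast
    rfl
  have h2 : ∀ w : altS F I, (kk w : ℚ) =
      ∑ u ∈ univ.filter (fun u : I → F => u ≠ 0), if (w : Matrix I I F) *ᵥ u = 0 then (1 : ℚ) else 0 := by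
    intro w
    rw [kk, ← Finset.filter_filter, Finset.card_filter]
    push_cast
    rfl
  have h3 : ∀ w : altS F I, (kk w : ℚ) * zz D w = ∑ t ∈ PD D, ∑ x ∈ univ.filter (fun u : I → F => u ≠ 0),
      if (w : Matrix I I F) *ᵥ t.1 = 0 ∧ (w : Matrix I I F) *ᵥ t.2 = 0 ∧ (w : Matrix I I F) *ᵥ x = 0
        then (1 : ℚ) else 0 := by
    intro w
    rw [mul_comm, h1, h2, Finset.sum_mul_sum]
    refine Finset.sum_congr rfl fun t _ => Finset.sum_congr rfl fun x _ => ?_
    simp only [ite_and, ite_mul, one_mul, zero_mul]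
  simp only [h3]
  rw [Finset.sum_comm, Finset.sum_congr rfl (g := fun _ => (((Fintype.card F : ℚ) ^ 2 - 1) * c2 F I +
    (X F I - (Fintype.card F : ℚ) ^ 2) * c3 F I))]
  · rw [Finset.sum_const, nsmul_eq_mul]
  · intro t ht
    obtain ⟨hu, hv⟩ := PD_indep ht
    rw [Finset.sum_comm]
    set L := univ.filter (fun x : I → F => ∃ a b : F, x = a • t.1 + b • t.2) with hL
    have h0L : (0 : I → F) ∈ L := by
      rw [hL, mem_filter]
      exact ⟨mem_univ _, 0, 0, by rw [zero_smul, zero_smul, add_zero]⟩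
    have hsplit : univ.filter (fun v : I → F => v ≠ 0) = L.erase 0 ∪ (univ.filter fun v => v ∉ L) := by
      ext v
      simp only [mem_filter, mem_univ, true_and, mem_union, mem_erase]
      constructor
      · intro h
        by_cases h1 : v ∈ L
        · exact Or.inl ⟨h, h1⟩
        · exact Or.inr h1
      · rintro (h | h)
        · exact h.1
        · rintro rfl
          exact h h0L
    have hdisj : Disjoint (L.erase 0) (univ.filter fun v => v ∉ L) := by
      rw [Finset.disjoint_left]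
      intro v hv hv'
      exact (mem_filter.1 hv').2 (mem_of_mem_erase hv)
    rw [hsplit, Finset.sum_union hdisj]
    have hA : ∀ x ∈ L.erase 0, (∑ w : altS F I, if (w : Matrix I I F) *ᵥ t.1 = 0 ∧ (w : Matrix I I F) *ᵥ t.2 = 0 ∧
        (w : Matrix I I F) *ᵥ x = 0 then (1 : ℚ) else 0) = c2 F I := by
      intro x hx
      obtain ⟨-, a, b, rfl⟩ := mem_filter.1 (mem_of_mem_erase hx)
      rw [← cnt2' hu hv 0 0 (zero_dotProduct _) (zero_dotProduct _)
        (by rw [zero_dotProduct, zero_dotProduct, add_zero]), Finset.card_filter]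
      push_cast
      refine Finset.sum_congr rfl fun w _ => ?_
      refine if_congr ⟨fun h => ⟨h.1, h.2.1⟩, fun h => ⟨h.1, h.2, ?_⟩⟩ rfl rfl
      rw [mulVec_add, mulVec_smul, mulVec_smul, h.1, h.2, smul_zero, smul_zero, add_zero]
    have hB : ∀ x ∈ univ.filter (fun v => v ∉ L), (∑ w : altS F I, if (w : Matrix I I F) *ᵥ t.1 = 0 ∧
        (w : Matrix I I F) *ᵥ t.2 = 0 ∧ (w : Matrix I I F) *ᵥ x = 0 then (1 : ℚ) else 0) = c3 F I := by
      intro x hx
      rw [← cnt3 hu hv (x := x) (fun a b h => (mem_filter.1 hx).2 (mem_filter.2 ⟨mem_univ _, a, b, h⟩)),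
        Finset.card_filter]
      push_cast
      rfl
    have hLc : L.card = Fintype.card F ^ 2 := plane_card hu hv
    have hq1 : 1 ≤ Fintype.card F ^ 2 := Nat.one_le_pow _ _ Fintype.card_pos
    rw [Finset.sum_congr rfl hA, Finset.sum_congr rfl hB, Finset.sum_const, Finset.sum_const, nsmul_eq_mul,
      nsmul_eq_mul, Finset.card_erase_of_mem h0L, hLc, Nat.cast_sub hq1, Nat.cast_one, Nat.cast_pow]
    congr 2
    have h6 := Finset.card_filter_add_card_filter_not (s := (univ : Finset (I → F))) fun u => u ∈ L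
    rw [Finset.card_univ, Fintype.card_fun, Finset.filter_mem_eq_inter, Finset.univ_inter, hLc] at h6
    rw [X, eq_sub_iff_add_eq, add_comm]
    exact_mod_cast h6

/-- simple matrices relative to `D` -/
def IsSimpS (D w : altS F I) : Prop := IsSimp (D : Matrix I I F) (w : Matrix I I F)

theorem IsSimpS.deg {D w : altS F I} (h : IsSimpS D w) : IsDeg w := by
  obtain ⟨x0, y0, hx0, hy0, hxy, -⟩ := h
  rw [IsDeg, ← Matrix.exists_mulVec_eq_zero_iff]
  refine ⟨y0, ?_, hy0⟩
  rintro rfl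
  rw [mulVec_zero, dotProduct_zero] at hxy
  exact hxy rfl

open Classical in
/-- the number of simple matrices -/
def nS (D : altS F I) : ℚ := (univ.filter fun w : altS F I => IsSimpS D w).card

open Classical in
theorem zz_bound {g : ℕ} (hI : Fintype.card I = 2 * g) (D w : altS F I) :
    ((Fintype.card F : ℚ) ^ 4 - 1) * zz D w - kk w * zz D w ≤
      if IsSimpS D w then ((Fintype.card F : ℚ) ^ 2 - 1) * ((Fintype.card F : ℚ) ^ 2 - Fintype.card F) *
        ((Fintype.card F : ℚ) ^ 4 - (Fintype.card F : ℚ) ^ 2) else 0 := by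
  set q : ℚ := (Fintype.card F : ℚ) with hq
  have hq2 : 2 ≤ q := q_ge
  have hq4 : 0 ≤ q ^ 4 - q ^ 2 := by
    have e1 : q ^ 4 - q ^ 2 = q ^ 2 * (q ^ 2 - 1) := by ring
    rw [e1]
    exact mul_nonneg (by positivity) (by nlinarith)
  have hR : 0 ≤ if IsSimpS D w then (q ^ 2 - 1) * (q ^ 2 - q) * (q ^ 4 - q ^ 2) else 0 := by
    split_ifs
    · exact mul_nonneg (mul_nonneg (by nlinarith) (by nlinarith)) hq4
    · exact le_rfl
  rcases Nat.eq_zero_or_pos (zz D w) with h0 | h0
  · rw [h0]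
    simpa using hR
  · obtain ⟨t, ht⟩ := Finset.card_pos.1 h0
    obtain ⟨-, ht1, ht2, ht3⟩ := mem_filter.1 ht
    have hdet : (w : Matrix I I F).det = 0 := by
      rw [← Matrix.exists_mulVec_eq_zero_iff]
      refine ⟨t.2, ?_, ht3⟩
      intro h
      rw [h, mulVec_zero, dotProduct_zero] at ht1
      exact ht1 rfl
    obtain ⟨j, hj, hk⟩ := kk_deg hI w hdet
    have hk' : (kk w : ℚ) = (q ^ 2) ^ j - 1 := by
      rw [eq_sub_iff_add_eq, hq]
      exact_mod_cast hk
    rcases Nat.lt_or_ge 1 j with h | h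
    · refine le_trans ?_ hR
      have h3 : (q ^ 2) ^ 2 ≤ (q ^ 2) ^ j := pow_le_pow_right₀ (by nlinarith) h
      have h4 : (q ^ 2) ^ 2 = q ^ 4 := by ring
      rw [h4] at h3
      rw [← sub_mul]
      exact mul_nonpos_of_nonpos_of_nonneg (by rw [hk']; linarith) (Nat.cast_nonneg _)
    · have hj1 : j = 1 := by omega
      rw [hj1, pow_one] at hk hk'
      -- the kernel
      set Kw := univ.filter fun u : I → F => (w : Matrix I I F) *ᵥ u = 0 with hKw
      have hKc : Kw.card = Fintype.card F ^ 2 := by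
        have h3 : kk w + 1 = Kw.card := by
          rw [kk, ← Finset.filter_filter, Finset.filter_comm, Finset.filter_ne']
          exact Finset.card_erase_add_one (mem_filter.2 ⟨mem_univ _, mulVec_zero _⟩)
        rw [← h3, hk]
      have htP : t ∈ PD D := mem_filter.2 ⟨mem_univ _, ht1⟩
      have hsimp : IsSimpS D w := by
        refine ⟨t.1, t.2, ht2, ht3, ht1, fun x hx => ?_⟩
        have hsub : (univ.filter fun x : I → F => ∃ a b : F, x = a • t.1 + b • t.2) ⊆ Kw := by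
          intro y hy
          obtain ⟨-, a, b, rfl⟩ := mem_filter.1 hy
          refine mem_filter.2 ⟨mem_univ _, ?_⟩
          rw [mulVec_add, mulVec_smul, mulVec_smul, ht2, ht3, smul_zero, smul_zero, add_zero]
        have heq := Finset.eq_of_subset_of_card_le hsub (by
          rw [hKc, plane_card (PD_indep htP).1 (PD_indep htP).2])
        have hx' : x ∈ Kw := mem_filter.2 ⟨mem_univ _, hx⟩
        rw [← heq] at hx'
        exact (mem_filter.1 hx').2
      rw [if_pos hsimp]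
      -- the number of pairs
      have hz : (zz D w : ℚ) ≤ (q ^ 2 - 1) * (q ^ 2 - q) := by
        have h5 : zz D w ≤ ∑ u ∈ Kw.erase 0, (Kw.filter fun v => u ⬝ᵥ ((D : Matrix I I F) *ᵥ v) ≠ 0).card := by
          rw [← Finset.card_sigma]
          refine Finset.card_le_card_of_injOn (fun t => ⟨t.1, t.2⟩) ?_ ?_
          · intro s hs
            obtain ⟨-, hs1, hs2, hs3⟩ := mem_filter.1 hs
            refine mem_sigma.2 ⟨mem_erase.2 ⟨?_, mem_filter.2 ⟨mem_univ _, hs2⟩⟩,
              mem_filter.2 ⟨mem_filter.2 ⟨mem_univ _, hs3⟩, hs1⟩⟩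
            intro h
            change s.1 = 0 at h
            rw [h, zero_dotProduct] at hs1
            exact hs1 rfl
          · intro a _ b _ hab
            simp only [Sigma.mk.injEq, heq_eq_eq] at hab
            exact Prod.ext hab.1 hab.2
        have h6 : ∀ u ∈ Kw.erase 0, (Kw.filter fun v => u ⬝ᵥ ((D : Matrix I I F) *ᵥ v) ≠ 0).card ≤
            Fintype.card F ^ 2 - Fintype.card F := by
          intro u hu
          obtain ⟨hu0, huK⟩ := mem_erase.1 hu
          have h7 : (Kw.filter fun v => u ⬝ᵥ ((D : Matrix I I F) *ᵥ v) = 0).card +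
              (Kw.filter fun v => u ⬝ᵥ ((D : Matrix I I F) *ᵥ v) ≠ 0).card = Kw.card :=
            Finset.card_filter_add_card_filter_not _
          have h8 : Fintype.card F ≤ (Kw.filter fun v => u ⬝ᵥ ((D : Matrix I I F) *ᵥ v) = 0).card := by
            rw [← line_card hu0]
            refine Finset.card_le_card fun v hv => ?_
            obtain ⟨-, c, rfl⟩ := mem_filter.1 hv
            refine mem_filter.2 ⟨mem_filter.2 ⟨mem_univ _, ?_⟩, ?_⟩
            · rw [mulVec_smul, (mem_filter.1 huK).2, smul_zero]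
            · rw [mulVec_smul, dotProduct_smul, alt_dot_self D.2, smul_zero]
          rw [hKc] at h7
          omega
        have h9 := h5.trans (Finset.sum_le_card_nsmul _ _ _ h6)
        have h0K : (0 : I → F) ∈ Kw := mem_filter.2 ⟨mem_univ _, mulVec_zero _⟩
        rw [Finset.card_erase_of_mem h0K, hKc, smul_eq_mul] at h9
        have h10 : ((Fintype.card F ^ 2 - 1 : ℕ) : ℚ) = q ^ 2 - 1 := by
          rw [Nat.cast_sub (Nat.one_le_pow _ _ Fintype.card_pos), Nat.cast_pow, Nat.cast_one]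
        have h11 : ((Fintype.card F ^ 2 - Fintype.card F : ℕ) : ℚ) = q ^ 2 - q := by
          rw [Nat.cast_sub (Nat.le_self_pow two_ne_zero _), Nat.cast_pow]
        calc (zz D w : ℚ) ≤ (((Fintype.card F ^ 2 - 1) * (Fintype.card F ^ 2 - Fintype.card F) : ℕ) : ℚ) := by
              exact_mod_cast h9
          _ = _ := by rw [Nat.cast_mul, h10, h11]
      rw [← sub_mul, hk']
      have e2 : q ^ 4 - 1 - (q ^ 2 - 1) = q ^ 4 - q ^ 2 := by ring
      rw [e2, mul_comm]
      exact mul_le_mul_of_nonneg_right hz hq4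

/-- **The proportion of simple matrices.** -/
theorem simp_lower {g : ℕ} (hg : 0 < g) (hI : Fintype.card I = 2 * g) {D : altS F I} (hD : D ≠ 0) :
    cA F I * ((Fintype.card F : ℚ) ^ 2 - Fintype.card F - 1) ≤
      nS D * (Fintype.card F * ((Fintype.card F : ℚ) ^ 2 - 1)) := by
  classical
  set q : ℚ := (Fintype.card F : ℚ) with hq
  have hq2 : 2 ≤ q := q_ge
  have hM : (0 : ℚ) < cA F I := by exact_mod_cast cA_pos
  have hXp : 0 < X F I := X_pos
  set κ : ℚ := ((univ.filter fun u : I → F => (D : Matrix I I F) *ᵥ u = 0).card : ℚ) with hκ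
  have hκ1 : κ * q ^ 2 ≤ X F I := ker_card hD
  have h1 := Finset.sum_le_sum fun w (_ : w ∈ (univ : Finset (altS F I))) => zz_bound hI D w
  rw [Finset.sum_sub_distrib, ← Finset.mul_sum, sum_zz, sum_kk_zz, ← Finset.sum_filter, Finset.sum_const,
    nsmul_eq_mul, PD_card D κ hκ, ← hq] at h1
  have hnS : ((univ.filter fun w : altS F I => IsSimpS D w).card : ℚ) = nS D := rfl
  rw [hnS] at h1
  have hk : 0 < q ^ 2 - 1 := by nlinarith
  have hqq : 0 ≤ q ^ 2 - q - 1 := by nlinarith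
  -- the lower bound for the left-hand side
  have h2 : cA F I * ((q ^ 2 - 1) * (q - 1) * q ^ 2 * (q ^ 2 - q - 1)) ≤
      (q ^ 4 - 1) * ((X F I - κ) * (X F I - X F I / q) * c2 F I) -
      (X F I - κ) * (X F I - X F I / q) * ((q ^ 2 - 1) * c2 F I + (X F I - q ^ 2) * c3 F I) := by
    have e1 : (q ^ 4 - 1) * ((X F I - κ) * (X F I - X F I / q) * c2 F I) -
        (X F I - κ) * (X F I - X F I / q) * ((q ^ 2 - 1) * c2 F I + (X F I - q ^ 2) * c3 F I) =
        cA F I * ((q ^ 2 - 1) * (q - 1) * q ^ 2 * (q ^ 2 - q - 1)) +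
        (X F I - κ * q ^ 2) * (cA F I * (q - 1) * q ^ 2 * (q ^ 2 - q - 1) / X F I) +
        (X F I - κ) * (cA F I * (q - 1) * q ^ 7 / X F I ^ 2) := by
      rw [c2, c3, ← hq]
      field_simp
      ring
    rw [e1]
    have e2 : 0 ≤ X F I - κ * q ^ 2 := by linarith
    have hκ0 : 0 ≤ κ := Nat.cast_nonneg _
    have e3 : 0 ≤ X F I - κ := by nlinarith
    have e4 : 0 ≤ q - 1 := by linarith
    have e5 : 0 ≤ (X F I - κ * q ^ 2) * (cA F I * (q - 1) * q ^ 2 * (q ^ 2 - q - 1) / X F I) := by positivity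
    have e6 : 0 ≤ (X F I - κ) * (cA F I * (q - 1) * q ^ 7 / X F I ^ 2) := by positivity
    linarith
  have h3 := h2.trans h1
  have e7 : 0 < (q - 1) * q ^ 2 * (q ^ 2 - 1) := by
    have : 0 < q - 1 := by linarith
    positivity
  refine le_of_mul_le_mul_right ?_ e7
  calc cA F I * (q ^ 2 - q - 1) * ((q - 1) * q ^ 2 * (q ^ 2 - 1)) =
      cA F I * ((q ^ 2 - 1) * (q - 1) * q ^ 2 * (q ^ 2 - q - 1)) := by ring
    _ ≤ _ := h3
    _ = _ := by ring

end Pool.Agent.V5helper95.PI
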