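import Mathlib
import Pool.Agent.V5helper95.PI.Simp

/-! Simple translates of alternating matrices over a finite field. -/

set_option autoImplicit false
set_option linter.all false

open Matrix Finset

noncomputable section

namespace Pool.Agent.V5helper95.PI

open Pool.Agent.Y109.PI

variable {F : Type*} [Field F] [Fintype F] [DecidableEq F] {I : Type*} [Fintype I] [DecidableEq I]

/-- monotonicity in the inequality of Cauchy and Schwarz -/
theorem cs_mono {n a E a0 E0 c : ℚ} (h : c * a ^ 2 ≤ n * (a + E)) (ha : a0 ≤ a) (ha0 : 0 < a0) (hE : E ≤ E0)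
    (hE0 : 0 ≤ E0) (hn : 0 ≤ n) (hc : 0 ≤ c) : c * a0 ^ 2 ≤ n * (a0 + E0) := by
  have h1 : c * a ^ 2 ≤ n * (a + E0) := h.trans (mul_le_mul_of_nonneg_left (by linarith) hn)
  have ha1 : 0 < a := lt_of_lt_of_le ha0 ha
  have h2 : 0 < a + E0 := by linarith
  have h3 : c * a0 ^ 2 * (a + E0) ≤ c * a ^ 2 * (a0 + E0) := by
    have e1 : c * a ^ 2 * (a0 + E0) - c * a0 ^ 2 * (a + E0) = c * (a - a0) * (a * a0 + E0 * (a + a0)) := by ring
    have e2 : 0 ≤ c * (a - a0) * (a * a0 + E0 * (a + a0)) := by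
      have : 0 ≤ a - a0 := by linarith
      positivity
    linarith
  have h4 : c * a0 ^ 2 * (a + E0) ≤ n * (a0 + E0) * (a + E0) := by
    have h5 := mul_le_mul_of_nonneg_right h1 (by linarith : 0 ≤ a0 + E0)
    linarith
  exact le_of_mul_le_mul_right h4 h2

open Classical in
theorem pair_simp {g : ℕ} (hI : Fintype.card I = 2 * g) (D : altS F I) {D' : altS F I} (hD' : D' ≠ 0) :
    ((univ.filter fun w : altS F I => IsSimpS D w ∧ IsSimpS D (w + D')).card : ℚ) ≤ eP F I := by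
  refine le_trans ?_ (pair_upper hI hD')
  have h1 : (univ.filter fun w : altS F I => IsSimpS D w ∧ IsSimpS D (w + D')) ⊆
      univ.filter fun w : altS F I => (w : Matrix I I F).det = 0 ∧ ((w + D' : altS F I) : Matrix I I F).det = 0 := by
    intro w hw
    rw [mem_filter] at hw ⊢
    exact ⟨mem_univ _, hw.2.1.deg, hw.2.2.deg⟩
  exact_mod_cast Finset.card_le_card h1

open Classical in
/-- the proportion `1 / 2 - 3 / (2 q)` -/
theorem simp_half {g : ℕ} (hg : 0 < g) (hI : Fintype.card I = 2 * g) {D : altS F I} (hD : D ≠ 0) :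
    (cA F I : ℚ) * (1 / 2 - 3 / (2 * Fintype.card F)) ≤
      (univ.filter fun w : altS F I => ∃ t : F, IsSimpS D (w + t • D)).card := by
  have h1 := (translates (IsSimpS D) (fun t : F => t • D) (smul_left_injective F hD) (eP F I)
    fun D' hD' => pair_simp hI D hD').1
  have hs := simp_lower (F := F) hg hI hD
  have he := eP_bound (F := F) hg hI
  set n1 : ℚ := ((univ.filter fun w : altS F I => ∃ t : F, IsSimpS D (w + t • D)).card : ℚ) with hn1
  have hnS : nP (IsSimpS D) = nS D := rfl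
  rw [hnS] at h1
  have hn0 : 0 ≤ n1 := Nat.cast_nonneg _
  have hM : (0 : ℚ) < cA F I := by exact_mod_cast cA_pos
  rcases Nat.lt_or_ge (Fintype.card F) 3 with hq3 | hq3
  · have h2 : Fintype.card F = 2 := by
      have := Fintype.one_lt_card (α := F)
      omega
    rw [h2]
    have : (cA F I : ℚ) * (1 / 2 - 3 / (2 * ((2 : ℕ) : ℚ))) ≤ 0 := by
      refine mul_nonpos_of_nonneg_of_nonpos hM.le ?_
      norm_num
    linarith
  · set q : ℚ := (Fintype.card F : ℚ) with hq
    have hq3' : 3 ≤ q := by rw [hq]; exact_mod_cast hq3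
    have hk : 0 < q ^ 2 - 1 := by nlinarith
    set M : ℚ := (cA F I : ℚ) with hMM
    -- multiply by `q (q - 1) (q + 1)^2`
    have hZ : 0 < q * (q ^ 2 - 1) * (q + 1) * 2 := by positivity
    refine le_of_mul_le_mul_right ?_ hZ
    have e1 : M * (1 / 2 - 3 / (2 * q)) * (q * (q ^ 2 - 1) * (q + 1) * 2) = M * ((q - 3) * (q ^ 2 - 1) * (q + 1)) := by
      have : q ≠ 0 := by linarith
      field_simp
    rw [e1]
    have h2 := mul_le_mul_of_nonneg_right h1 (by positivity : 0 ≤ q * (q ^ 2 - 1) * (q + 1))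
    have h3 := mul_le_mul_of_nonneg_right hs (by positivity : (0 : ℚ) ≤ 2 * q * (q + 1))
    have h4 : q * (q - 1) * eP F I * (q * (q ^ 2 - 1) * (q + 1)) ≤ M * (q ^ 3 + q ^ 2 - 1) * q := by
      have h5 : q * (q - 1) * eP F I * (q * (q ^ 2 - 1) * (q + 1)) = eP F I * (q * (q ^ 2 - 1) ^ 2) * q := by ring
      rw [h5]
      exact mul_le_mul_of_nonneg_right he (by linarith)
    have h6 : 0 ≤ M * (q ^ 3 - 3 * q - 3) := by
      refine mul_nonneg hM.le ?_
      nlinarith [mul_nonneg (by linarith : (0 : ℚ) ≤ q - 3) (by positivity : (0 : ℚ) ≤ q ^ 2)]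
    have h7 : 2 * (q * nS D) * (q * (q ^ 2 - 1) * (q + 1)) = nS D * (q * (q ^ 2 - 1)) * (2 * q * (q + 1)) := by ring
    have h8 : M * (q ^ 2 - q - 1) * (2 * q * (q + 1)) - M * (q ^ 3 + q ^ 2 - 1) * q =
        M * ((q - 3) * (q ^ 2 - 1) * (q + 1)) + M * (q ^ 3 - 3 * q - 3) := by ring
    have h9 : (2 * (q * nS D) - q * (q - 1) * eP F I) * (q * (q ^ 2 - 1) * (q + 1)) =
        2 * (q * nS D) * (q * (q ^ 2 - 1) * (q + 1)) - q * (q - 1) * eP F I * (q * (q ^ 2 - 1) * (q + 1)) := by ring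
    rw [h9, h7] at h2
    have h10 : 2 * n1 * (q * (q ^ 2 - 1) * (q + 1)) = n1 * (q * (q ^ 2 - 1) * (q + 1) * 2) := by ring
    rw [h10] at h2
    linarith

open Classical in
/-- the proportion `1 / 6` -/
theorem simp_sixth {g : ℕ} (hg : 0 < g) (hI : Fintype.card I = 2 * g) {D : altS F I} (hD : D ≠ 0) :
    (cA F I : ℚ) * (1 / 6) ≤ (univ.filter fun w : altS F I => ∃ t : F, IsSimpS D (w + t • D)).card := by
  have hM : (0 : ℚ) < cA F I := by exact_mod_cast cA_pos
  have hq2 : (2 : ℚ) ≤ (Fintype.card F : ℚ) := q_ge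
  rcases Nat.lt_or_ge (Fintype.card F) 5 with hq5 | hq5
  · have hs := simp_lower (F := F) hg hI hD
    have h1 : nS D ≤ (univ.filter fun w : altS F I => ∃ t : F, IsSimpS D (w + t • D)).card := by
      rw [nS]
      have h2 : (univ.filter fun w : altS F I => IsSimpS D w) ⊆
          univ.filter fun w : altS F I => ∃ t : F, IsSimpS D (w + t • D) := by
        intro w hw
        rw [mem_filter] at hw ⊢
        exact ⟨mem_univ _, 0, by rw [zero_smul, add_zero]; exact hw.2⟩
      exact_mod_cast Finset.card_le_card h2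
    refine le_trans ?_ h1
    have hF : Fintype.card F = 2 ∨ Fintype.card F = 3 ∨ Fintype.card F = 4 := by
      have := Fintype.one_lt_card (α := F)
      omega
    rcases hF with h | h | h
    · rw [h] at hs
      norm_num at hs
      linarith
    · rw [h] at hs
      norm_num at hs
      linarith
    · rw [h] at hs
      norm_num at hs
      linarith
  · refine le_trans ?_ (simp_half hg hI hD)
    refine mul_le_mul_of_nonneg_left ?_ hM.le
    have hq5' : (5 : ℚ) ≤ Fintype.card F := by exact_mod_cast hq5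
    have h3 : (3 : ℚ) / (2 * Fintype.card F) ≤ 3 / 10 := by
      rw [div_le_div_iff₀ (by linarith) (by norm_num)]
      linarith
    linarith

open Classical in
/-- the proportion `1 - 4 / q` -/
theorem simp_most {g : ℕ} (hg : 0 < g) (hI : Fintype.card I = 2 * g) {D D' : altS F I}
    (hD : LinearIndependent F ![D, D']) :
    (cA F I : ℚ) * (1 - 4 / Fintype.card F) ≤
      (univ.filter fun w : altS F I => ∃ t : F × F, IsSimpS D (w + (t.1 • D + t.2 • D'))).card := by
  have hinj : Function.Injective fun t : F × F => t.1 • D + t.2 • D' := by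
    intro a b hab
    simp only at hab
    have h0 : (a.1 - b.1) • D + (a.2 - b.2) • D' = 0 := by
      refine Subtype.ext ?_
      ext i j
      have h1 := congrFun (congrFun (congrArg Subtype.val hab) i) j
      simp only [Submodule.coe_add, Submodule.coe_smul, Matrix.add_apply, Matrix.smul_apply, smul_eq_mul,
        Submodule.coe_zero, Matrix.zero_apply] at h1 ⊢
      linear_combination h1
    obtain ⟨h1, h2⟩ := LinearIndependent.pair_iff.1 hD _ _ h0
    exact Prod.ext (sub_eq_zero.1 h1) (sub_eq_zero.1 h2)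
  have hD0 : D ≠ 0 := fun h => hD.ne_zero 0 h
  have h1 := (translates (IsSimpS D) (fun t : F × F => t.1 • D + t.2 • D') hinj (eP F I)
    fun D' hD' => pair_simp hI D hD').2
  have hs := simp_lower (F := F) hg hI hD0
  have he := eP_bound (F := F) hg hI
  have heP : 0 ≤ eP F I := le_trans (Nat.cast_nonneg _) (pair_upper (F := F) hI hD0)
  set n1 : ℚ := ((univ.filter fun w : altS F I => ∃ t : F × F, IsSimpS D (w + (t.1 • D + t.2 • D'))).card : ℚ)
    with hn1
  have hnS : nP (IsSimpS D) = nS D := rfl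
  rw [hnS] at h1
  have hn0 : 0 ≤ n1 := Nat.cast_nonneg _
  have hM : (0 : ℚ) < cA F I := by exact_mod_cast cA_pos
  have hcT : (Fintype.card (F × F) : ℚ) = (Fintype.card F : ℚ) ^ 2 := by
    rw [Fintype.card_prod, Nat.cast_mul, sq]
  rw [hcT] at h1
  set q : ℚ := (Fintype.card F : ℚ) with hq
  have hq2 : 2 ≤ q := q_ge
  have hk : 0 < q ^ 2 - 1 := by nlinarith
  have hqq : 0 < q ^ 2 - q - 1 := by nlinarith
  set M : ℚ := (cA F I : ℚ) with hMM
  have h2 : q ^ 2 * nS D ^ 2 ≤ n1 * (nS D + (q ^ 2 - 1) * eP F I) := by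
    have hq20 : 0 < q ^ 2 := by positivity
    refine le_of_mul_le_mul_right ?_ hq20
    calc q ^ 2 * nS D ^ 2 * q ^ 2 = (q ^ 2 * nS D) ^ 2 := by ring
      _ ≤ _ := h1
      _ = _ := by ring
  have hq0 : q ≠ 0 := by linarith
  have ha0 : M * (q ^ 2 - q - 1) / (q * (q ^ 2 - 1)) ≤ nS D := by
    rw [div_le_iff₀ (by positivity)]
    exact hs
  have hE0 : (q ^ 2 - 1) * eP F I ≤ M * (q ^ 3 + q ^ 2 - 1) / (q * (q ^ 2 - 1)) := by
    rw [le_div_iff₀ (by positivity)]
    calc (q ^ 2 - 1) * eP F I * (q * (q ^ 2 - 1)) = eP F I * (q * (q ^ 2 - 1) ^ 2) := by ring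
      _ ≤ _ := he
  have hq3 : 0 < q ^ 3 + q ^ 2 - 1 := by
    have : q ^ 3 + q ^ 2 - 1 = q ^ 3 + (q ^ 2 - 1) := by ring
    rw [this]
    positivity
  have h3 := cs_mono h2 ha0 (by positivity) hE0 (by positivity) hn0 (by positivity)
  have h4 : M * (q ^ 2 - q - 1) / (q * (q ^ 2 - 1)) + M * (q ^ 3 + q ^ 2 - 1) / (q * (q ^ 2 - 1)) =
      M * (q + 2) / q := by
    have : q ^ 2 - 1 ≠ 0 := hk.ne'
    field_simp
    ring
  rw [h4] at h3
  have h5 : q ^ 2 * (M * (q ^ 2 - q - 1) / (q * (q ^ 2 - 1))) ^ 2 =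
      M * (M * (q ^ 2 - q - 1) ^ 2 / (q ^ 2 - 1) ^ 2) := by
    have : q ^ 2 - 1 ≠ 0 := hk.ne'
    field_simp
  have h6 : n1 * (M * (q + 2) / q) = M * (n1 * (q + 2) / q) := by ring
  rw [h5, h6] at h3
  have h7 := le_of_mul_le_mul_left h3 hM
  -- `M (q^2-q-1)^2 / (q^2-1)^2 ≤ n1 (q+2)/q`
  rw [div_le_div_iff₀ (by positivity) (by linarith)] at h7
  have hZ : 0 < (q + 2) * (q ^ 2 - 1) ^ 2 * q := by positivity
  refine le_of_mul_le_mul_right ?_ hZ
  have h8 : M * (1 - 4 / q) * ((q + 2) * (q ^ 2 - 1) ^ 2 * q) = M * ((q - 4) * (q + 2) * (q ^ 2 - 1) ^ 2) := by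
    field_simp
  rw [h8]
  have h9 := mul_le_mul_of_nonneg_right h7 (by linarith : 0 ≤ q)
  have h10 : 0 ≤ M * (9 * q ^ 4 - 2 * q ^ 3 - 16 * q ^ 2 + 2 * q + 8) := by
    refine mul_nonneg hM.le ?_
    obtain ⟨s, hs⟩ : ∃ s, q = s + 2 := ⟨q - 2, by ring⟩
    have hs0 : 0 ≤ s := by linarith
    rw [hs]
    ring_nf
    positivity
  have h11 : M * (q ^ 2 - q - 1) ^ 2 * q * q = M * ((q - 4) * (q + 2) * (q ^ 2 - 1) ^ 2) +
      M * (9 * q ^ 4 - 2 * q ^ 3 - 16 * q ^ 2 + 2 * q + 8) := by ring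
  rw [h11] at h9
  have h12 : n1 * (q + 2) * (q ^ 2 - 1) ^ 2 * q = n1 * ((q + 2) * (q ^ 2 - 1) ^ 2 * q) := by ring
  rw [h12] at h9
  linarith

end Pool.Agent.V5helper95.PI
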