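import Mathlib
import Pool.Agent.V5helper95.PI.Crt
import Pool.Agent.V5helper95.PI.Half2

/-! From matrices to classes: counting products of `g - 1` symbols. -/

set_option autoImplicit false
set_option linter.all false

open Matrix Finset

noncomputable section

namespace Pool.Agent.V5helper95.PI

open Pool.Agent.Y109.PI

/-- preimages of sets under a surjective homomorphism -/
theorem fib_set {G H : Type*} [AddGroup G] [AddGroup H] [Fintype G] [Fintype H] [DecidableEq H]
    (f : G →+ H) (hf : Function.Surjective f) (T : Finset H) :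
    (univ.filter fun g => f g ∈ T).card * Fintype.card H = T.card * Fintype.card G := by
  classical
  have h1 : (univ.filter fun g => f g ∈ T).card = ∑ h ∈ T, (univ.filter fun g => f g = h).card := by
    have h0 := Finset.card_eq_sum_card_fiberwise (f := f) (s := univ.filter fun g => f g ∈ T) (t := T)
      (fun g hg => (mem_filter.1 (Finset.mem_coe.1 hg)).2)
    rw [h0]
    refine Finset.sum_congr rfl fun h hh => ?_
    congr 1
    ext g
    simp only [mem_filter, mem_univ, true_and]
    constructor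
    · exact fun h => h.2
    · rintro rfl
      exact ⟨hh, rfl⟩
  rw [h1, Finset.sum_mul, Finset.sum_congr rfl fun h _ => fib f hf h, Finset.sum_const, smul_eq_mul]

section

variable {G B : Type*} [CommGroup G] [CommGroup B] {s : G →* G →* B} {I κ : Type*} [Fintype I] [DecidableEq I]
  [Fintype κ] [DecidableEq κ]

theorem Q_comb' (z : I → G) (w : κ → I → I → ℤ) (c : κ → ℤ) :
    Q s z (∑ i, c i • w i) = ∏ i, Q s z (w i) ^ c i := by
  rw [Q_sum]
  exact Finset.prod_congr rfl fun i _ => Q_smul s z _ _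

theorem dif_comb' (w : κ → I → I → ℤ) (c : κ → ℤ) : dif (∑ i, c i • w i) = ∑ i, c i • dif (w i) := by
  ext u v
  simp only [Matrix.of_apply, Finset.sum_apply, Pi.smul_apply, smul_eq_mul, Matrix.sum_apply, Matrix.smul_apply,
    dif, ← Finset.sum_sub_distrib]
  exact Finset.sum_congr rfl fun i _ => by ring

/-- the product only depends on the exponents modulo `n` -/
theorem Q_mod (n : ℕ) (htors : ∀ a b, s a b ^ n = 1) (z : I → G) (w w' : I → I → ℤ)
    (h : ∀ u v, (n : ℤ) ∣ w u v - w' u v) : Q s z w = Q s z w' := by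
  rw [Q, Q]
  refine Finset.prod_congr rfl fun q _ => ?_
  obtain ⟨c, hc⟩ := h q.1 q.2
  have e1 : w q.1 q.2 = w' q.1 q.2 + n * c := by linear_combination hc
  rw [e1, _root_.zpow_add, _root_.zpow_mul, zpow_natCast, htors, _root_.one_zpow, mul_one]

/-- the integral matrix with given residues modulo `n` -/
def lft {n : ℕ} (w : I → I → ZMod n) : I → I → ℤ := fun u v => ((w u v).val : ℤ)

theorem lft_cast {n : ℕ} [NeZero n] (w : I → I → ZMod n) (u v : I) : ((lft w u v : ℤ) : ZMod n) = w u v := by
  simp only [lft]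
  push_cast
  simp only [ZMod.natCast_val, ZMod.cast_id', id]

variable (s) in
/-- the homomorphism from matrices modulo `n` to classes -/
def psi (n : ℕ) [NeZero n] (htors : ∀ a b, s a b ^ n = 1) (z : I → G) : (I → I → ZMod n) →+ Additive B where
  toFun w := Additive.ofMul (Q s z (lft w))
  map_zero' := by
    have h := Q_mod (s := s) n htors z (lft (0 : I → I → ZMod n)) 0 (fun u v => by
      rw [← ZMod.intCast_zmod_eq_zero_iff_dvd, Int.cast_sub, lft_cast]
      simp)
    rw [h, Q_zero]
    rfl
  map_add' w w' := by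
    have h := Q_mod (s := s) n htors z (lft (w + w')) (lft w + lft w') (fun u v => by
      rw [← ZMod.intCast_zmod_eq_zero_iff_dvd, Int.cast_sub, lft_cast, Pi.add_apply, Pi.add_apply, Pi.add_apply,
        Pi.add_apply, Int.cast_add, lft_cast, lft_cast]
      simp)
    rw [h, Q_add]
    rfl

theorem psi_apply (n : ℕ) [NeZero n] (htors : ∀ a b, s a b ^ n = 1) (z : I → G) (w : I → I → ZMod n) :
    psi s n htors z w = Additive.ofMul (Q s z (lft w)) := rfl

/-- all classes come from matrices -/
theorem psi_surj (n : ℕ) [NeZero n] (htors : ∀ a b, s a b ^ n = 1) (z : I → G) (α : B)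
    (hα : α ∈ Subgroup.closure (Set.range fun q : I × I => s (z q.1) (z q.2))) :
    ∃ w : I → I → ZMod n, Q s z (lft w) = α := by
  classical
  induction hα using Subgroup.closure_induction with
  | mem x hx =>
    obtain ⟨q, rfl⟩ := hx
    refine ⟨fun a b => (Pi.single q.1 1 : I → ZMod n) a * (Pi.single q.2 1 : I → ZMod n) b, ?_⟩
    change _ = s (z q.1) (z q.2)
    rw [← Q_single s z q.1 q.2]
    refine Q_mod n htors z _ _ fun u v => ?_
    rw [← ZMod.intCast_zmod_eq_zero_iff_dvd, Int.cast_sub, lft_cast, Int.cast_mul, sub_eq_zero]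
    congr 1
    · by_cases h : u = q.1
      · subst h; simp
      · rw [Pi.single_eq_of_ne h, Pi.single_eq_of_ne h, Int.cast_zero]
    · by_cases h : v = q.2
      · subst h; simp
      · rw [Pi.single_eq_of_ne h, Pi.single_eq_of_ne h, Int.cast_zero]
  | one =>
    refine ⟨0, ?_⟩
    exact congrArg Additive.toMul (map_zero (psi s n htors z))
  | mul x y _ _ hx hy =>
    obtain ⟨a, rfl⟩ := hx
    obtain ⟨b, rfl⟩ := hy
    exact ⟨a + b, congrArg Additive.toMul (map_add (psi s n htors z) a b)⟩
  | inv x _ hx =>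
    obtain ⟨a, rfl⟩ := hx
    exact ⟨-a, congrArg Additive.toMul (map_neg (psi s n htors z) a)⟩

theorem Q_mem (z : I → G) (w : I → I → ℤ) :
    Q s z w ∈ Subgroup.closure (Set.range fun q : I × I => s (z q.1) (z q.2)) := by
  rw [Q]
  refine Subgroup.prod_mem _ fun q _ => Subgroup.zpow_mem _ ?_ _
  exact Subgroup.subset_closure ⟨q, rfl⟩

/-- a good matrix gives a product of `g - 1` symbols -/
theorem good_prod (hanti : ∀ a b, s a b = (s b a)⁻¹) (n : ℕ) (htors : ∀ a b, s a b ^ n = 1) (ε : G)
    (H : Subgroup G) (hε : ε ∈ H) (hdiag : ∀ a, s a a = 1 ∨ s a a = s a ε) (V : Subgroup B) (z : I → G)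
    (hlow : low s H V z ≤ ⊥) {g : ℕ} (W : κ → I → I → ℤ) (hW : ∀ i, Q s z (W i) = 1) (w : I → I → ℤ)
    (h : GoodMod g W (dif w) n) : ∃ x y : Fin (g - 1) → G, Q s z w = ∏ i, s (x i) (y i) := by
  obtain ⟨c, e, f, hcef⟩ := h
  refine ⟨fun i => mon z (e i), fun i => mon z (f i), ?_⟩
  have h1 := mod_low hanti n htors ε H hε hdiag V z (w + ∑ i, c i • W i) (g - 1) e f (by
    intro u v
    have e1 : (w + ∑ i, c i • W i) u v - (w + ∑ i, c i • W i) v u = (dif w + ∑ i, c i • dif (W i)) u v := by
      rw [← dif_comb']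
      simp only [Pi.add_apply, Matrix.add_apply, Matrix.of_apply, dif]
      ring
    rw [e1]
    exact hcef u v)
  have h2 := hlow h1
  rw [Subgroup.mem_bot, mul_inv_eq_one, Q_add, Q_comb'] at h2
  have h3 : ∏ i, Q s z (W i) ^ c i = 1 := Finset.prod_eq_one fun i _ => by rw [hW i, _root_.one_zpow]
  rw [h3, mul_one] at h2
  exact h2

end

section

variable {I : Type*} [Fintype I] [DecidableEq I]

instance factPrime {n : ℕ} (p : n.primeFactors) : Fact (p : ℕ).Prime := ⟨Nat.prime_of_mem_primeFactors p.2⟩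

/-- the alternating matrix modulo `p` -/
def rhoP {n : ℕ} (p : n.primeFactors) (w : I → I → ZMod n) : altS (ZMod p) I :=
  ⟨Matrix.of fun u v => ZMod.castHom (Nat.dvd_of_mem_primeFactors p.2) (ZMod p) (w u v) -
    ZMod.castHom (Nat.dvd_of_mem_primeFactors p.2) (ZMod p) (w v u),
    fun u => by rw [Matrix.of_apply, sub_self], fun u v => by rw [Matrix.of_apply, Matrix.of_apply, neg_sub]⟩

/-- the alternating matrices modulo all prime divisors -/
def rho (n : ℕ) : (I → I → ZMod n) →+ ∀ p : n.primeFactors, altS (ZMod p) I where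
  toFun w := fun p => rhoP p w
  map_zero' := by
    funext p
    refine Subtype.ext ?_
    ext u v
    simp [rhoP]
  map_add' w w' := by
    funext p
    refine Subtype.ext ?_
    ext u v
    simp only [rhoP, Matrix.of_apply, Pi.add_apply, map_add, Submodule.coe_add, Matrix.add_apply]
    ring

theorem rho_surj (n : ℕ) (hn : 0 < n) : Function.Surjective (rho (I := I) n) := by
  classical
  haveI : NeZero n := ⟨hn.ne'⟩
  intro A
  let e := Fintype.equivFin I
  let b : ℕ → I × I → ℤ := fun p q => if h : p ∈ n.primeFactors then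
    (if e q.1 < e q.2 then (((A ⟨p, h⟩).1 q.1 q.2).val : ℤ) else 0) else 0
  obtain ⟨x, hx⟩ := crt_fun n b
  refine ⟨fun u v => (x (u, v) : ZMod n), ?_⟩
  funext p
  refine Subtype.ext ?_
  ext u v
  change ZMod.castHom (Nat.dvd_of_mem_primeFactors p.2) (ZMod p) ((x (u, v) : ℤ) : ZMod n) -
    ZMod.castHom (Nat.dvd_of_mem_primeFactors p.2) (ZMod p) ((x (v, u) : ℤ) : ZMod n) = _
  rw [map_intCast, map_intCast, hx p (Nat.prime_of_mem_primeFactors p.2) (Nat.dvd_of_mem_primeFactors p.2) hn,
    hx p (Nat.prime_of_mem_primeFactors p.2) (Nat.dvd_of_mem_primeFactors p.2) hn]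
  have hb : ∀ u v, ((b p (u, v) : ℤ) : ZMod p) = if e u < e v then ((A p : altS (ZMod p) I) : Matrix I I (ZMod p)) u v
      else 0 := by
    intro u v
    simp only [b]
    rw [dif_pos p.2]
    split_ifs
    · haveI : NeZero (p : ℕ) := ⟨(Nat.prime_of_mem_primeFactors p.2).ne_zero⟩
      exact vcast _
    · simp
  rw [hb, hb]
  rcases lt_trichotomy (e u) (e v) with h | h | h
  · rw [if_pos h, if_neg (not_lt.2 h.le), sub_zero]
  · have : u = v := e.injective h
    subst this
    rw [sub_self]
    exact ((A p).2.1 u).symm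
  · rw [if_neg (not_lt.2 h.le), if_pos h, zero_sub]
    exact ((A p).2.2 u v).symm

theorem red_rho {n : ℕ} [NeZero n] (p : n.primeFactors) (w : I → I → ZMod n) :
    red p (dif (lft w)) = ((rhoP p w : altS (ZMod p) I) : Matrix I I (ZMod p)) := by
  ext u v
  rw [red_apply]
  change ((lft w u v - lft w v u : ℤ) : ZMod p) = ZMod.castHom (Nat.dvd_of_mem_primeFactors p.2) (ZMod p) (w u v) -
    ZMod.castHom (Nat.dvd_of_mem_primeFactors p.2) (ZMod p) (w v u)
  conv_rhs => rw [← lft_cast w u v, ← lft_cast w v u, map_intCast, map_intCast]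
  rw [Int.cast_sub]

end

open Classical in
/-- **The proportion of good classes.** -/
theorem transfer {G B : Type*} [CommGroup G] [CommGroup B] {s : G →* G →* B} {I κ : Type*} [Fintype I]
    [DecidableEq I] [Fintype κ] [DecidableEq κ]
    (hanti : ∀ a b, s a b = (s b a)⁻¹) (n : ℕ) (hn : 0 < n) (htors : ∀ a b, s a b ^ n = 1) (ε : G)
    (H : Subgroup G) (hε : ε ∈ H) (hdiag : ∀ a, s a a = 1 ∨ s a a = s a ε) (V : Subgroup B) (z : I → G)
    (hlow : low s H V z ≤ ⊥) {g : ℕ} (W : κ → I → I → ℤ) (hW : ∀ i, Q s z (W i) = 1)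
    (c : ℕ → ℚ) (hc : ∀ p, p.Prime → 0 ≤ c p)
    (Gd : ∀ p : n.primeFactors, altS (ZMod p) I → Prop)
    (h1 : ∀ (p : n.primeFactors) (b : Matrix I I ℤ) (hb : Alt b), Gd p ⟨red p b, hb.map' _⟩ →
      GoodMod g W b ((p : ℕ) ^ n.factorization p))
    (h2 : ∀ p : n.primeFactors, (cA (ZMod p) I : ℚ) * c p ≤ (univ.filter fun w => Gd p w).card) :
    Finite (Subgroup.closure (Set.range fun q : I × I => s (z q.1) (z q.2))) ∧
    (Nat.card (Subgroup.closure (Set.range fun q : I × I => s (z q.1) (z q.2))) : ℚ) * ∏ p ∈ n.primeFactors, c p ≤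
      Nat.card {α : B // α ∈ Subgroup.closure (Set.range fun q : I × I => s (z q.1) (z q.2)) ∧
        ∃ x y : Fin (g - 1) → G, α = ∏ i, s (x i) (y i)} := by
  haveI : NeZero n := ⟨hn.ne'⟩
  set S := Subgroup.closure (Set.range fun q : I × I => s (z q.1) (z q.2)) with hS
  -- the surjection onto the group of classes
  let f : (I → I → ZMod n) →+ Additive S :=
    { toFun := fun w => Additive.ofMul ⟨Q s z (lft w), Q_mem z _⟩
      map_zero' := by
        have h := congrArg Additive.toMul (map_zero (psi s n htors z))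
        exact congrArg Additive.ofMul (Subtype.ext h)
      map_add' := fun a b => by
        have h := congrArg Additive.toMul (map_add (psi s n htors z) a b)
        exact congrArg Additive.ofMul (Subtype.ext h) }
  have hf : Function.Surjective f := by
    intro α
    obtain ⟨w, hw⟩ := psi_surj n htors z (Additive.toMul α : S) (Additive.toMul α).2
    exact ⟨w, congrArg Additive.ofMul (Subtype.ext hw)⟩
  haveI : Fintype (I → I → ZMod n) := inferInstance
  haveI hfin : Finite S := Finite.of_surjective (fun w => Additive.toMul (f w)) (fun α => hf (Additive.ofMul α))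
  haveI : Finite (Additive S) := hfin
  haveI : Fintype (Additive S) := Fintype.ofFinite _
  refine ⟨hfin, ?_⟩
  let T : Finset (Additive S) := univ.filter fun α =>
    ∃ x y : Fin (g - 1) → G, ((Additive.toMul α : S) : B) = ∏ i, s (x i) (y i)
  have hT : (Nat.card {α : B // α ∈ S ∧ ∃ x y : Fin (g - 1) → G, α = ∏ i, s (x i) (y i)}) = T.card := by
    rw [← Nat.card_eq_finsetCard]
    refine Nat.card_congr ?_
    exact
      { toFun := fun α => ⟨Additive.ofMul ⟨α.1, α.2.1⟩, mem_filter.2 ⟨mem_univ _, α.2.2⟩⟩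
        invFun := fun α => ⟨((Additive.toMul α.1 : S) : B), (Additive.toMul α.1 : S).2, (mem_filter.1 α.2).2⟩
        left_inv := fun α => rfl
        right_inv := fun α => rfl }
  have hScard : Nat.card S = Fintype.card (Additive S) := by
    rw [← Nat.card_eq_fintype_card]
    rfl
  rw [hT, hScard]
  have k1 := fib_set f hf T
  -- the good matrices
  let P : Finset (∀ p : n.primeFactors, altS (ZMod p) I) :=
    Fintype.piFinset fun p => univ.filter fun w => Gd p w
  have k2 := fib_set (rho (I := I) n) (rho_surj n hn) P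
  have k3 : (univ.filter fun w : I → I → ZMod n => rho n w ∈ P).card ≤
      (univ.filter fun w : I → I → ZMod n => f w ∈ T).card := by
    refine Finset.card_le_card fun w hw => ?_
    rw [mem_filter] at hw ⊢
    refine ⟨mem_univ _, mem_filter.2 ⟨mem_univ _, ?_⟩⟩
    refine good_prod hanti n htors ε H hε hdiag V z hlow W hW (lft w) ?_
    refine good_crt n hn W _ fun p hp hpn => ?_
    have hp' : p ∈ n.primeFactors := Nat.mem_primeFactors.2 ⟨hp, hpn, hn.ne'⟩
    refine h1 ⟨p, hp'⟩ (dif (lft w)) (alt_dif _) ?_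
    have h3 := (mem_filter.1 (Fintype.mem_piFinset.1 hw.2 ⟨p, hp'⟩)).2
    haveI : Fact p.Prime := ⟨hp⟩
    have h4 : (⟨red p (dif (lft w)), (alt_dif (lft w)).map' _⟩ : altS (ZMod p) I) = rho n w ⟨p, hp'⟩ :=
      Subtype.ext (red_rho ⟨p, hp'⟩ w)
    rw [h4]
    exact h3
  have k4 : ((∏ p ∈ n.primeFactors, c p : ℚ)) * (Fintype.card (∀ p : n.primeFactors, altS (ZMod p) I) : ℚ) ≤
      P.card := by
    rw [Fintype.card_pi, Fintype.card_piFinset, ← Finset.prod_coe_sort]
    push_cast
    rw [← Finset.prod_mul_distrib]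
    refine Finset.prod_le_prod (fun p _ => ?_) (fun p _ => ?_)
    · exact mul_nonneg (hc _ (Nat.prime_of_mem_primeFactors p.2)) (Nat.cast_nonneg _)
    · have h5 := h2 p
      rw [mul_comm] at h5
      exact h5
  have hΛ : (0 : ℚ) < Fintype.card (I → I → ZMod n) := by exact_mod_cast Fintype.card_pos
  have hA : (0 : ℚ) < Fintype.card (∀ p : n.primeFactors, altS (ZMod p) I) := by exact_mod_cast Fintype.card_pos
  have k1' : ((univ.filter fun w : I → I → ZMod n => f w ∈ T).card : ℚ) * Fintype.card (Additive S) =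
      T.card * Fintype.card (I → I → ZMod n) := by exact_mod_cast k1
  have k2' : ((univ.filter fun w : I → I → ZMod n => rho n w ∈ P).card : ℚ) *
      Fintype.card (∀ p : n.primeFactors, altS (ZMod p) I) = P.card * Fintype.card (I → I → ZMod n) := by
    exact_mod_cast k2
  have k3' : ((univ.filter fun w : I → I → ZMod n => rho n w ∈ P).card : ℚ) ≤
      ((univ.filter fun w : I → I → ZMod n => f w ∈ T).card : ℚ) := by exact_mod_cast k3
  set C : ℚ := ∏ p ∈ n.primeFactors, c p with hC
  set sS : ℚ := (Fintype.card (Additive S) : ℚ) with hsS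
  set lam : ℚ := (Fintype.card (I → I → ZMod n) : ℚ) with hlam
  set aA : ℚ := (Fintype.card (∀ p : n.primeFactors, altS (ZMod p) I) : ℚ) with haA
  set a1 : ℚ := ((univ.filter fun w : I → I → ZMod n => rho n w ∈ P).card : ℚ) with ha1
  set a2 : ℚ := ((univ.filter fun w : I → I → ZMod n => f w ∈ T).card : ℚ) with ha2
  have hs0 : 0 ≤ sS := Nat.cast_nonneg _
  -- `C λ ≤ a1`
  have m1 : C * lam ≤ a1 := by
    have h6 : C * aA * lam ≤ P.card * lam := mul_le_mul_of_nonneg_right k4 hΛ.le
    rw [← k2'] at h6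
    have h7 : C * aA * lam = C * lam * aA := by ring
    rw [h7] at h6
    exact le_of_mul_le_mul_right h6 hA
  have m2 : sS * C * lam ≤ T.card * lam := by
    rw [← k1']
    calc sS * C * lam = C * lam * sS := by ring
      _ ≤ a2 * sS := mul_le_mul_of_nonneg_right (m1.trans k3') hs0
  exact le_of_mul_le_mul_right m2 hΛ

end Pool.Agent.V5helper95.PI
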