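import Mathlib
import Pool.Agent.V5helper95.PI.Cls

/-! Classes with a nondegenerate translate modulo all prime divisors of `n`: symbols over a base field. -/

set_option autoImplicit false
set_option linter.all false

open Matrix Finset

noncomputable section

namespace Pool.Agent.V5helper95.PI

open Pool.Agent.Y109.PI

/-- the bound for the proportion of pairs of degenerate matrices -/
def tq (q : ℚ) : ℚ := (q ^ 3 + q ^ 2 - 1) / (q * (q ^ 2 - 1) ^ 2)

theorem tq_nonneg {q : ℚ} (hq : 2 ≤ q) : 0 ≤ tq q := by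
  rw [tq]
  have h1 : 0 ≤ q ^ 2 - 1 := by nlinarith
  have h2 : 0 ≤ q ^ 3 := by positivity
  have h3 : 0 ≤ q ^ 3 + q ^ 2 - 1 := by linarith
  positivity

theorem tq_le_one {q : ℚ} (hq : 2 ≤ q) : tq q ≤ 1 := by
  rw [tq, div_le_one (by
    have : 0 < q ^ 2 - 1 := by nlinarith
    positivity)]
  obtain ⟨s, hs⟩ : ∃ s, q = s + 2 := ⟨q - 2, by ring⟩
  have hs0 : 0 ≤ s := by linarith
  rw [← sub_nonneg, hs]
  ring_nf
  positivity

section

variable {F : Type*} [Field F] [Fintype F] [DecidableEq F] {I : Type*} [Fintype I] [DecidableEq I]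

open Classical in
/-- **The proportion of matrices with a nondegenerate translate.** -/
theorem nondeg_one {g : ℕ} (hg : 0 < g) (hI : Fintype.card I = 2 * g) {D : altS F I} (hD : D ≠ 0) :
    (cA F I : ℚ) * (1 - tq (Fintype.card F)) ≤
      (univ.filter fun w : altS F I => ∃ t : F, ¬ IsDeg (w + t • D)).card := by
  have h1 := pair_upper hI hD
  have h2 := eP_bound (F := F) hg hI
  set q : ℚ := (Fintype.card F : ℚ) with hq
  have hq2 : 2 ≤ q := q_ge
  have hk : 0 < q ^ 2 - 1 := by nlinarith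
  have hpos : 0 < q * (q ^ 2 - 1) ^ 2 := by positivity
  have h3 : eP F I ≤ cA F I * tq q := by
    rw [tq, mul_div_assoc', le_div_iff₀ hpos]
    exact h2
  have h4 : (cA F I : ℚ) = ((univ.filter fun w : altS F I => ∃ t : F, ¬ IsDeg (w + t • D)).card : ℚ) +
      ((univ.filter fun w : altS F I => ¬ ∃ t : F, ¬ IsDeg (w + t • D)).card : ℚ) := by
    have h5 := Finset.card_filter_add_card_filter_not (s := (univ : Finset (altS F I)))
      (fun w : altS F I => ∃ t : F, ¬ IsDeg (w + t • D))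
    rw [Finset.card_univ] at h5
    rw [cA, ← h5]
    push_cast
    rfl
  have h6 : ((univ.filter fun w : altS F I => ¬ ∃ t : F, ¬ IsDeg (w + t • D)).card : ℚ) ≤ eP F I := by
    refine le_trans ?_ h1
    refine Nat.cast_le.2 (Finset.card_le_card fun w hw => ?_)
    rw [mem_filter] at hw ⊢
    refine ⟨mem_univ _, ?_, ?_⟩
    · by_contra h
      exact hw.2 ⟨0, by rw [zero_smul, add_zero]; exact h⟩
    · by_contra h
      exact hw.2 ⟨1, by rw [one_smul]; exact h⟩
  rw [mul_sub, mul_one]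
  linarith

end

section

variable {G B : Type*} [CommGroup G] [CommGroup B] {s : G →* G →* B} {I κ : Type*} [Fintype I] [DecidableEq I]
  [Fintype κ] [DecidableEq κ]

/-- a class whose matrix is nondegenerate modulo all prime divisors of `n` -/
theorem abs_one (hanti : ∀ a b, s a b = (s b a)⁻¹) (n : ℕ)
    (htors : ∀ a b, s a b ^ n = 1) (ε : G)
    (H : Subgroup G) (hε : ε ∈ H) (hdiag : ∀ a, s a a = 1 ∨ s a a = s a ε) (V : Subgroup B)
    (hV : ∀ a ∈ H, ∀ b ∈ H, s a b ∈ V) (z : I → G) (g : ℕ) (hI : Fintype.card I = 2 * g)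
    (α : B) (w : I → I → ℤ) (hw : α * (Q s z w)⁻¹ ∈ low s H V z)
    (hdet : IsCoprime (dif w).det (n : ℤ)) :
    ∃ x y : Fin g → G, ∃ v ∈ V, α = (∏ i, s (x i) (y i)) * v := by
  obtain ⟨e, f, hef⟩ := decomp (K := ℚ) (RingHom.injective_int (algebraMap ℤ ℚ)) g (dif w) (alt_dif w) (by
    have := Matrix.rank_le_card_width ((dif w).map (algebraMap ℤ ℚ))
    omega)
  have h1 := mod_low hanti n htors ε H hε hdiag V z w g e f (by
    intro u v
    rw [← hef]
    simp [dif])
  have h2 : α * (∏ i, s (mon z (e i)) (mon z (f i)))⁻¹ ∈ low s H V z := by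
    have h3 := Subgroup.mul_mem _ hw h1
    have e1 : α * (Q s z w)⁻¹ * (Q s z w * (∏ i, s (mon z (e i)) (mon z (f i)))⁻¹) =
        α * (∏ i, s (mon z (e i)) (mon z (f i)))⁻¹ := by
      rw [mul_assoc, inv_mul_cancel_left]
    rw [e1] at h3
    exact h3
  obtain ⟨a, c, ha, hc, v, hv, h⟩ := low_absorb n htors H V z g hI e f (by rw [← hef]; exact hdet) _ h2
  refine ⟨fun i => mon z (e i) * c i, fun i => mon z (f i) * (a i)⁻¹, (∏ i, s (c i) (a i)) * v,
    V.mul_mem (V.prod_mem fun i _ => hV _ (hc i) _ (ha i)) hv, ?_⟩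
  have h4 : α = (∏ i, s (mon z (e i)) (mon z (f i))) *
      ((∏ i, (s (a i) (mon z (e i)) * s (c i) (mon z (f i)))) * v) := by
    rw [← h, mul_comm α, mul_inv_cancel_left]
  rw [h4, ← mul_assoc, ← mul_assoc, ← Finset.prod_mul_distrib, ← Finset.prod_mul_distrib]
  congr 1
  refine Finset.prod_congr rfl fun i _ => ?_
  simp only [map_mul, MonoidHom.mul_apply, map_inv]
  rw [hanti (a i) (mon z (e i))]
  generalize s (mon z (e i)) (mon z (f i)) = p
  generalize s (mon z (e i)) (a i) = q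
  generalize s (c i) (mon z (f i)) = r
  generalize s (c i) (a i) = t
  calc p * (q⁻¹ * r) = p * r * q⁻¹ * (t⁻¹ * t) := by
        rw [inv_mul_cancel, mul_one]; simp only [mul_assoc, mul_comm, mul_left_comm]
    _ = p * r * (q⁻¹ * t⁻¹) * t := by simp only [mul_assoc]
    _ = _ := by simp only [mul_inv, mul_assoc, mul_comm, mul_left_comm]

end

open Classical in
/-- **The proportion of good classes in a finite group of classes.** -/
theorem transferU {G B : Type*} [CommGroup G] [CommGroup B] {s : G →* G →* B} {I κ : Type*} [Fintype I]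
    [DecidableEq I] [Fintype κ] [DecidableEq κ]
    (hanti : ∀ a b, s a b = (s b a)⁻¹) (n : ℕ) (hn : 0 < n) (htors : ∀ a b, s a b ^ n = 1) (ε : G)
    (H : Subgroup G) (hε : ε ∈ H) (hdiag : ∀ a, s a a = 1 ∨ s a a = s a ε) (V : Subgroup B)
    (hV : ∀ a ∈ H, ∀ b ∈ H, s a b ∈ V) (z : I → G)
    {g : ℕ} (hI : Fintype.card I = 2 * g) (W : κ → I → I → ℤ) (hW : ∀ i, Q s z (W i) ∈ low s H V z)
    (U : Subgroup B) [Finite U]
    (hU : ∀ α ∈ U, α ∈ Subgroup.closure {γ | ∃ a ∈ H ⊔ Subgroup.closure (Set.range z),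
      ∃ b ∈ H ⊔ Subgroup.closure (Set.range z), γ = s a b})
    (hUz : ∀ u v, s (z u) (z v) ∈ U ⊔ low s H V z)
    (c : ℕ → ℚ) (hc : ∀ p, p.Prime → 0 ≤ c p)
    (Gd : ∀ p : n.primeFactors, altS (ZMod p) I → Prop)
    (h1 : ∀ (p : n.primeFactors) (b : Matrix I I ℤ) (hb : Alt b), Gd p ⟨red p b, hb.map' _⟩ →
      ∃ t : κ → ℤ, (red p (b + ∑ i, t i • dif (W i))).det ≠ 0)
    (h2 : ∀ p : n.primeFactors, (cA (ZMod p) I : ℚ) * c p ≤ (univ.filter fun w => Gd p w).card) :
    (Nat.card U : ℚ) * ∏ p ∈ n.primeFactors, c p ≤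
      Nat.card {α : B // α ∈ U ∧ ∃ x y : Fin g → G, ∃ v ∈ V, α = (∏ i, s (x i) (y i)) * v} := by
  haveI : NeZero n := ⟨hn.ne'⟩
  set Lo := low s H V z with hLo
  -- the homomorphism to the quotient
  let f0 : (I → I → ZMod n) →+ Additive (B ⧸ Lo) :=
    (MonoidHom.toAdditive (QuotientGroup.mk' Lo)).comp (psi s n htors z)
  have hf0 : ∀ w, f0 w = Additive.ofMul (QuotientGroup.mk (Q s z (lft w)) : B ⧸ Lo) := fun w => rfl
  haveI : Fintype (I → I → ZMod n) := inferInstance
  let R := f0.range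
  haveI hRfin : Finite R := Finite.of_surjective f0.rangeRestrict f0.rangeRestrict_surjective
  haveI : Fintype R := Fintype.ofFinite _
  let f : (I → I → ZMod n) →+ R := f0.rangeRestrict
  have hf : Function.Surjective f := f0.rangeRestrict_surjective
  -- classes in `U` come from matrices
  have hmat : ∀ α ∈ U, ∃ w : I → I → ZMod n, α * (Q s z (lft w))⁻¹ ∈ Lo := by
    intro α hα
    obtain ⟨w, hw⟩ := exists_Q hanti H V hV z α (hU α hα)
    refine ⟨fun u v => (w u v : ZMod n), ?_⟩
    rw [Q_mod n htors z (lft fun u v => (w u v : ZMod n)) w (fun u v => by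
      rw [← ZMod.intCast_zmod_eq_zero_iff_dvd, Int.cast_sub, lft_cast, sub_self])]
    exact hw
  have hmk : ∀ {α β : B}, α * β⁻¹ ∈ Lo ↔ (QuotientGroup.mk α : B ⧸ Lo) = QuotientGroup.mk β := by
    intro α β
    rw [eq_comm, QuotientGroup.eq, mul_comm]
  let π0 : Additive U →+ Additive (B ⧸ Lo) :=
    MonoidHom.toAdditive ((QuotientGroup.mk' Lo).comp U.subtype)
  have hπ0 : ∀ α : Additive U, π0 α = Additive.ofMul (QuotientGroup.mk ((Additive.toMul α : U) : B) : B ⧸ Lo) :=
    fun α => rfl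
  let π : Additive U →+ R := π0.codRestrict R (by
    intro α
    obtain ⟨w, hw⟩ := hmat _ (Additive.toMul α).2
    exact ⟨w, by rw [hf0, hπ0, ← hmk.1 hw]⟩)
  have hπ : Function.Surjective π := by
    rintro ⟨r, w, rfl⟩
    have h3 : Q s z (lft w) ∈ U ⊔ Lo := by
      rw [Q]
      exact Subgroup.prod_mem _ fun q _ => Subgroup.zpow_mem _ (hUz _ _) _
    obtain ⟨a, ha, b, hb, hab⟩ := Subgroup.mem_sup.1 h3
    refine ⟨Additive.ofMul ⟨a, ha⟩, Subtype.ext ?_⟩
    change Additive.ofMul (QuotientGroup.mk a : B ⧸ Lo) = Additive.ofMul (QuotientGroup.mk (Q s z (lft w)) : B ⧸ Lo)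
    congr 1
    rw [← hab, ← hmk]
    have : a * (a * b)⁻¹ = b⁻¹ := by rw [mul_inv, mul_inv_cancel_left]
    rw [this]
    exact Lo.inv_mem hb
  haveI : Finite (Additive U) := ‹Finite U›
  haveI : Fintype (Additive U) := Fintype.ofFinite _
  have hUcard : Nat.card U = Fintype.card (Additive U) := by
    rw [← Nat.card_eq_fintype_card]
    rfl
  -- the good matrices
  let P : Finset (∀ p : n.primeFactors, altS (ZMod p) I) :=
    Fintype.piFinset fun p => univ.filter fun w => Gd p w
  let T : Finset R := (univ.filter fun w : I → I → ZMod n => rho n w ∈ P).image f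
  have k1 := fib_set f hf T
  have k2 := fib_set (rho (I := I) n) (rho_surj n hn) P
  have k3 : (univ.filter fun w : I → I → ZMod n => rho n w ∈ P).card ≤
      (univ.filter fun w : I → I → ZMod n => f w ∈ T).card := by
    refine Finset.card_le_card fun w hw => ?_
    rw [mem_filter]
    exact ⟨mem_univ _, Finset.mem_image_of_mem _ hw⟩
  have k5 := fib_set π hπ T
  have k6 : (univ.filter fun α : Additive U => π α ∈ T).card ≤
      Nat.card {α : B // α ∈ U ∧ ∃ x y : Fin g → G, ∃ v ∈ V, α = (∏ i, s (x i) (y i)) * v} := by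
    rw [← Nat.card_eq_finsetCard]
    haveI : Finite {α : B // α ∈ U ∧ ∃ x y : Fin g → G, ∃ v ∈ V, α = (∏ i, s (x i) (y i)) * v} :=
      Finite.of_injective (β := U) (fun α => ⟨α.1, α.2.1⟩) (fun a b h => by
        have h' := congrArg (fun x : U => (x : B)) h
        exact Subtype.ext h')
    refine Nat.card_le_card_of_injective (fun α => ⟨((Additive.toMul α.1 : U) : B), (Additive.toMul α.1 : U).2, ?_⟩)
      (fun a b h => by
        have h' := congrArg Subtype.val h
        exact Subtype.ext (Subtype.ext h'))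
    obtain ⟨α, hα⟩ := α
    obtain ⟨w, hw, hwα⟩ := Finset.mem_image.1 (mem_filter.1 hα).2
    have h3 : Additive.ofMul (QuotientGroup.mk (Q s z (lft w)) : B ⧸ Lo) =
        Additive.ofMul (QuotientGroup.mk ((Additive.toMul α : U) : B) : B ⧸ Lo) := congrArg Subtype.val hwα
    have h4 : ((Additive.toMul α : U) : B) * (Q s z (lft w))⁻¹ ∈ Lo := hmk.2 h3.symm
    have h5 : ∀ p : ℕ, ∃ t : κ → ℤ, p.Prime → p ∣ n → (red p (dif (lft w) + ∑ i, t i • dif (W i))).det ≠ 0 := by
      intro p
      by_cases hp : p.Prime ∧ p ∣ n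
      · have hp' : p ∈ n.primeFactors := Nat.mem_primeFactors.2 ⟨hp.1, hp.2, hn.ne'⟩
        haveI : Fact p.Prime := ⟨hp.1⟩
        have h6 := (mem_filter.1 (Fintype.mem_piFinset.1 (mem_filter.1 hw).2 ⟨p, hp'⟩)).2
        obtain ⟨t, ht⟩ := h1 ⟨p, hp'⟩ (dif (lft w)) (alt_dif _) (by
          have h7 : (⟨red p (dif (lft w)), (alt_dif (lft w)).map' _⟩ : altS (ZMod p) I) = rho n w ⟨p, hp'⟩ :=
            Subtype.ext (red_rho ⟨p, hp'⟩ w)
          rw [h7]
          exact h6)
        exact ⟨t, fun _ _ => ht⟩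
      · exact ⟨0, fun a b => absurd ⟨a, b⟩ hp⟩
    choose t ht using h5
    obtain ⟨x, hx⟩ := crt_fun n t
    refine abs_one hanti n htors ε H hε hdiag V hV z g hI _ (lft w + ∑ i, x i • W i) ?_ ?_
    · rw [Q_add, mul_inv, ← mul_assoc]
      refine Lo.mul_mem h4 (Lo.inv_mem ?_)
      rw [Q_comb']
      exact Subgroup.prod_mem _ fun i _ => Subgroup.zpow_mem _ (hW i) _
    · rw [Int.isCoprime_iff_gcd_eq_one]
      by_contra hne
      obtain ⟨p, hp, hpd⟩ := Nat.exists_prime_and_dvd hne
      have e1 : (p : ℤ) ∣ (dif (lft w + ∑ i, x i • W i)).det :=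
        (Int.natCast_dvd_natCast.2 hpd).trans (Int.gcd_dvd_left _ _)
      have e2 : p ∣ n := by
        have := (Int.natCast_dvd_natCast.2 hpd).trans
          (Int.gcd_dvd_right (dif (lft w + ∑ i, x i • W i)).det (n : ℤ))
        exact_mod_cast this
      apply ht p hp e2
      rw [← ZMod.intCast_zmod_eq_zero_iff_dvd, red_det] at e1
      have e3 : dif (lft w + ∑ i, x i • W i) = dif (lft w) + ∑ i, x i • dif (W i) := by
        rw [← dif_comb']
        ext u v
        simp only [dif, Pi.add_apply, Matrix.add_apply, Matrix.of_apply]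
        ring
      rw [e3, red_add_sum'] at e1
      rw [red_add_sum']
      rw [← e1]
      congr 2
      refine Finset.sum_congr rfl fun i _ => ?_
      rw [hx p hp e2 hn i]
  have k4 : ((∏ p ∈ n.primeFactors, c p : ℚ)) * (Fintype.card (∀ p : n.primeFactors, altS (ZMod p) I) : ℚ) ≤
      P.card := by
    rw [Fintype.card_pi, Fintype.card_piFinset, ← Finset.prod_coe_sort]
    push_cast
    rw [← Finset.prod_mul_distrib]
    refine Finset.prod_le_prod (fun p _ => ?_) (fun p _ => ?_)
    · exact mul_nonneg (hc _ (Nat.prime_of_mem_primeFactors p.2)) (Nat.cast_nonneg _)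
    · have h5 := h2 p
      rw [mul_comm] at h5
      exact h5
  have hΛ : (0 : ℚ) < Fintype.card (I → I → ZMod n) := by exact_mod_cast Fintype.card_pos
  have hA : (0 : ℚ) < Fintype.card (∀ p : n.primeFactors, altS (ZMod p) I) := by exact_mod_cast Fintype.card_pos
  have hRpos : (0 : ℚ) < Fintype.card R := by exact_mod_cast Fintype.card_pos
  rw [hUcard]
  refine le_trans ?_ (Nat.cast_le.2 k6)
  have k1' : ((univ.filter fun w : I → I → ZMod n => f w ∈ T).card : ℚ) * Fintype.card R =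
      T.card * Fintype.card (I → I → ZMod n) := by exact_mod_cast k1
  have k2' : ((univ.filter fun w : I → I → ZMod n => rho n w ∈ P).card : ℚ) *
      Fintype.card (∀ p : n.primeFactors, altS (ZMod p) I) = P.card * Fintype.card (I → I → ZMod n) := by
    exact_mod_cast k2
  have k3' : ((univ.filter fun w : I → I → ZMod n => rho n w ∈ P).card : ℚ) ≤
      ((univ.filter fun w : I → I → ZMod n => f w ∈ T).card : ℚ) := by exact_mod_cast k3
  have k5' : ((univ.filter fun α : Additive U => π α ∈ T).card : ℚ) * Fintype.card R =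
      T.card * Fintype.card (Additive U) := by exact_mod_cast k5
  set C : ℚ := ∏ p ∈ n.primeFactors, c p with hC
  set sS : ℚ := (Fintype.card (Additive U) : ℚ) with hsS
  set lam : ℚ := (Fintype.card (I → I → ZMod n) : ℚ) with hlam
  set aA : ℚ := (Fintype.card (∀ p : n.primeFactors, altS (ZMod p) I) : ℚ) with haA
  set rR : ℚ := (Fintype.card R : ℚ) with hrR
  set a1 : ℚ := ((univ.filter fun w : I → I → ZMod n => rho n w ∈ P).card : ℚ) with ha1
  set a2 : ℚ := ((univ.filter fun w : I → I → ZMod n => f w ∈ T).card : ℚ) with ha2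
  set a3 : ℚ := ((univ.filter fun α : Additive U => π α ∈ T).card : ℚ) with ha3
  have hs0 : 0 ≤ sS := Nat.cast_nonneg _
  have m1 : C * lam ≤ a1 := by
    have h6 : C * aA * lam ≤ P.card * lam := mul_le_mul_of_nonneg_right k4 hΛ.le
    rw [← k2'] at h6
    have h7 : C * aA * lam = C * lam * aA := by ring
    rw [h7] at h6
    exact le_of_mul_le_mul_right h6 hA
  -- `C rR ≤ T`
  have m2 : C * rR ≤ T.card := by
    have h8 : C * rR * lam ≤ T.card * lam := by
      rw [← k1']
      calc C * rR * lam = C * lam * rR := by ring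
        _ ≤ a2 * rR := mul_le_mul_of_nonneg_right (m1.trans k3') hRpos.le
    exact le_of_mul_le_mul_right h8 hΛ
  have m3 : sS * C * rR ≤ a3 * rR := by
    rw [k5']
    calc sS * C * rR = C * rR * sS := by ring
      _ ≤ T.card * sS := mul_le_mul_of_nonneg_right m2 hs0
  exact le_of_mul_le_mul_right m3 hRpos

/-- the constant for the odd numbers from `11` on -/
theorem tq_odd (j : ℕ) (hj : 5 ≤ j) : tq ((2 * j + 1 : ℕ) : ℚ) ≤ 1 / 2 * (1 / (2 * j - 1 : ℚ) - 1 / (2 * j + 1 : ℚ)) := by
  obtain ⟨i, rfl⟩ : ∃ i, j = i + 5 := ⟨j - 5, by omega⟩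
  rw [tq]
  push_cast
  have hi : (0 : ℚ) ≤ i := Nat.cast_nonneg i
  have e1 : (1 : ℚ) / 2 * (1 / (2 * ((i : ℚ) + 5) - 1) - 1 / (2 * ((i : ℚ) + 5) + 1)) =
      1 / ((2 * i + 9) * (2 * i + 11)) := by
    have h1 : (2 * ((i : ℚ) + 5) - 1) = 2 * i + 9 := by ring
    have h2 : (2 * ((i : ℚ) + 5) + 1) = 2 * i + 11 := by ring
    rw [h1, h2]
    field_simp
    ring
  rw [e1, div_le_div_iff₀ (by
    have h3 : (2 * ((i : ℚ) + 5) + 1) ^ 2 - 1 = (2 * i + 10) * (2 * i + 12) := by ring
    rw [h3]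
    positivity) (by positivity), ← sub_nonneg]
  ring_nf
  positivity

theorem sum_odd (J : ℕ) : ∑ j ∈ Finset.Ico 5 (5 + J), tq ((2 * j + 1 : ℕ) : ℚ) ≤ 1 / 18 := by
  have h1 : ∑ j ∈ Finset.Ico 5 (5 + J), tq ((2 * j + 1 : ℕ) : ℚ) ≤
      1 / 2 * (1 / 9 - 1 / (2 * J + 9 : ℚ)) := by
    induction J with
    | zero => simp
    | succ J ih =>
      rw [← add_assoc, Finset.sum_Ico_succ_top (by omega)]
      have h2 := tq_odd (5 + J) (by omega)
      push_cast at h2 ih ⊢
      have e1 : (2 * (5 + (J : ℚ)) - 1) = 2 * J + 9 := by ring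
      have e2 : (2 * (5 + (J : ℚ)) + 1) = 2 * (J + 1) + 9 := by ring
      rw [e1] at h2
      rw [e2] at h2 ⊢
      linarith
  refine h1.trans ?_
  have : (0 : ℚ) ≤ 1 / (2 * J + 9 : ℚ) := by positivity
  linarith

theorem prod_ge_one_sub_sum (P : Finset ℕ) (x : ℕ → ℚ) (h0 : ∀ p ∈ P, 0 ≤ x p) (h1 : ∀ p ∈ P, x p ≤ 1) :
    1 - ∑ p ∈ P, x p ≤ ∏ p ∈ P, (1 - x p) := by
  classical
  induction P using Finset.induction_on with
  | empty => simp
  | insert a P ha ih =>
    rw [Finset.sum_insert ha, Finset.prod_insert ha]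
    have i1 := ih (fun p hp => h0 p (Finset.mem_insert_of_mem hp)) (fun p hp => h1 p (Finset.mem_insert_of_mem hp))
    have a0 := h0 a (Finset.mem_insert_self _ _)
    have a1 := h1 a (Finset.mem_insert_self _ _)
    have b1 : ∏ p ∈ P, (1 - x p) ≤ 1 := Finset.prod_le_one (fun p hp => by
      have := h1 p (Finset.mem_insert_of_mem hp); linarith) (fun p hp => by
      have := h0 p (Finset.mem_insert_of_mem hp); linarith)
    nlinarith

/-- **The constants are bounded below.** -/
theorem const_bound (P : Finset ℕ) (hP : ∀ p ∈ P, p.Prime) : (27 / 100 : ℚ) ≤ ∏ p ∈ P, (1 - tq p) := by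
  classical
  have hp2 : ∀ p ∈ P, (2 : ℚ) ≤ p := fun p hp => by exact_mod_cast (hP p hp).two_le
  have hsplit : ∏ p ∈ P, (1 - tq p) = (∏ p ∈ P.filter (fun p => p < 11), (1 - tq (p : ℚ))) *
      ∏ p ∈ P.filter (fun p => ¬ p < 11), (1 - tq (p : ℚ)) := (Finset.prod_filter_mul_prod_filter_not _ _ _).symm
  have hA : (7 / 18 * (157 / 192) * (2731 / 2880) * (15737 / 16128) : ℚ) ≤
      ∏ p ∈ P.filter (fun p => p < 11), (1 - tq (p : ℚ)) := by
    have hsub : P.filter (fun p => p < 11) ⊆ {2, 3, 5, 7} := by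
      intro p hp
      rw [Finset.mem_filter] at hp
      have h1 := hP p hp.1
      have h2 := hp.2
      interval_cases p <;> first | (simp; done) | (exfalso; revert h1; norm_num; done)
    have h3 : ∏ p ∈ ({2, 3, 5, 7} : Finset ℕ), (1 - tq (p : ℚ)) ≤ ∏ p ∈ P.filter (fun p => p < 11), (1 - tq (p : ℚ)) := by
      refine Finset.prod_le_prod_of_subset_of_le_one hsub (fun p hp => ?_) (fun p hp _ => ?_)
      · have h4 : (2 : ℚ) ≤ p := by
          simp only [Finset.mem_insert, Finset.mem_singleton] at hp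
          rcases hp with rfl | rfl | rfl | rfl <;> norm_num
        have := tq_le_one h4
        linarith
      · have h4 : (2 : ℚ) ≤ p := by
          simp only [Finset.mem_insert, Finset.mem_singleton] at hp
          rcases hp with rfl | rfl | rfl | rfl <;> norm_num
        have := tq_nonneg h4
        linarith
    refine le_trans ?_ h3
    simp only [tq]
    norm_num
  have hB : (17 / 18 : ℚ) ≤ ∏ p ∈ P.filter (fun p => ¬ p < 11), (1 - tq (p : ℚ)) := by
    refine le_trans ?_ (prod_ge_one_sub_sum _ (fun p => tq (p : ℚ)) (fun p hp => tq_nonneg (hp2 p (Finset.mem_filter.1 hp).1))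
      (fun p hp => tq_le_one (hp2 p (Finset.mem_filter.1 hp).1)))
    have h4 : ∑ p ∈ P.filter (fun p => ¬ p < 11), tq (p : ℚ) ≤ 1 / 18 := by
      obtain ⟨J, hJ⟩ : ∃ J, ∀ p ∈ P, p < J := ⟨P.sup id + 1, fun p hp => Nat.lt_succ_of_le (Finset.le_sup (f := id) hp)⟩
      refine le_trans ?_ (sum_odd J)
      have hodd : ∀ p ∈ P.filter (fun p => ¬ p < 11), 2 * (p / 2) + 1 = p := by
        intro p hp
        rw [Finset.mem_filter] at hp
        have h5 := (hP p hp.1).eq_two_or_odd
        omega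
      have h6 : ∑ p ∈ P.filter (fun p => ¬ p < 11), tq (p : ℚ) =
          ∑ j ∈ (P.filter (fun p => ¬ p < 11)).image (fun p => p / 2), tq ((2 * j + 1 : ℕ) : ℚ) := by
        rw [Finset.sum_image (fun a ha b hb hab => by
          have := hodd a ha
          have := hodd b hb
          have hab' : a / 2 = b / 2 := hab
          omega)]
        exact Finset.sum_congr rfl fun p hp => by rw [hodd p hp]
      rw [h6]
      refine Finset.sum_le_sum_of_subset_of_nonneg ?_ ?_
      · intro j hj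
        obtain ⟨p, hp, rfl⟩ := Finset.mem_image.1 hj
        rw [Finset.mem_filter] at hp
        have := hJ p hp.1
        rw [Finset.mem_Ico]
        omega
      · intro j hj _
        rw [Finset.mem_Ico] at hj
        refine tq_nonneg ?_
        push_cast
        have : (5 : ℚ) ≤ j := by exact_mod_cast hj.1
        linarith
    linarith
  rw [hsplit]
  have hAB := mul_le_mul hA hB (by norm_num) (le_trans (by norm_num) hA)
  refine le_trans ?_ hAB
  norm_num

end Pool.Agent.V5helper95.PI
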